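import Mathlib
import Pool.Agent.Lib.MP_551055_al.Trim.LS.Stmts
import Pool.Agent.Lib.MP_551055_al.Trim.T4.Alg
import Pool.Agent.Lib.MP_551055_al.Trim.T4.BC
import Pool.Agent.Lib.MP_551055_al.Trim.T4.Csub
import Pool.Agent.Lib.MP_551055_al.Trim.T4.Gen
import Pool.Agent.Lib.MP_551055_al.Trim.T4.Perf

/-!
# Perfect modules killed by an ideal of the coefficients
-/

set_option autoImplicit false

namespace Pool.Agent.Lib.MP_551055_al
end Pool.Agent.Lib.MP_551055_al

namespace Pool.Agent.Lib.MP_551055_al.LS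
end Pool.Agent.Lib.MP_551055_al.LS

namespace Pool.Agent.Lib.MP_551055_al.T4
end Pool.Agent.Lib.MP_551055_al.T4

namespace Pool.Agent.Lib.MP_551055_al.T6

open Pool.Agent.Lib.MP_551055_al

open Pool.Agent.Lib.MP_551055_al.LS

open Pool.Agent.Lib.MP_551055_al.T4

universe u

section Perf

variable {S : Type u} [Ring S] {B C P : Type u} [AddCommGroup B] [Module S B] [AddCommGroup C]
  [Module S C] [AddCommGroup P] [Module S P]

/-- Preimages of perfect submodules. -/
theorem perf_comap (φ : B →ₗ[S] C) (hk : Perf S (LinearMap.ker φ)) (V : Submodule S C)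
    (hle : V ≤ LinearMap.range φ) (hV : Perf S V) : Perf S (V.comap φ) := by
  have hker : LinearMap.ker φ ≤ V.comap φ := fun x hx => by
    rw [Submodule.mem_comap, LinearMap.mem_ker.1 hx]
    exact V.zero_mem
  refine Perf.mid (i := Submodule.inclusion hker) (q := φ.restrict fun x hx => hx)
    (Submodule.inclusion_injective hker) ?_ ?_ hk hV
  · rintro ⟨y, hy⟩
    obtain ⟨x, rfl⟩ := hle hy
    exact ⟨⟨x, hy⟩, rfl⟩
  · intro y
    constructor
    · intro h
      exact ⟨⟨y.1, congrArg Subtype.val h⟩, rfl⟩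
    · rintro ⟨x, rfl⟩
      exact Subtype.ext x.2

/-- Images of perfect submodules. -/
theorem perf_map (φ : B →ₗ[S] C) (V N : Submodule S B) (hN : Perf S N) (hNV : N ≤ V)
    (hker : ∀ v ∈ V, φ v = 0 ↔ v ∈ N) (hV : Perf S V) : Perf S (V.map φ) := by
  refine Perf.right (i := Submodule.inclusion hNV)
    (q := φ.restrict fun x hx => Submodule.mem_map_of_mem hx)
    (Submodule.inclusion_injective hNV) ?_ ?_ hN hV
  · rintro ⟨_, x, hx, rfl⟩
    exact ⟨⟨x, hx⟩, rfl⟩
  · intro y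
    constructor
    · intro h
      exact ⟨⟨y.1, (hker y.1 y.2).1 (congrArg Subtype.val h)⟩, rfl⟩
    · rintro ⟨x, rfl⟩
      exact Subtype.ext ((hker x.1 (hNV x.2)).2 x.2)

theorem perf_map_inj (φ : B →ₗ[S] C) (hφ : Function.Injective φ) (V : Submodule S B)
    (hV : Perf S V) : Perf S (V.map φ) :=
  hV.congr (Submodule.equivMapOfInjective φ hφ V)

theorem perf_range (φ : B →ₗ[S] C) (hφ : Function.Injective φ) (hB : Perf S B) :
    Perf S (LinearMap.range φ) :=
  hB.congr (LinearEquiv.ofInjective φ hφ)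

/-- The image of a perfect module with perfect kernel. -/
theorem perf_range' (φ : B →ₗ[S] C) (hk : Perf S (LinearMap.ker φ)) (hB : Perf S B) :
    Perf S (LinearMap.range φ) :=
  Perf.right (i := (LinearMap.ker φ).subtype) (q := φ.rangeRestrict)
    (LinearMap.ker φ).injective_subtype φ.surjective_rangeRestrict
    (fun y => ⟨fun h => ⟨⟨y, congrArg Subtype.val h⟩, rfl⟩, fun ⟨x, hx⟩ => by
      rw [← hx]
      exact Subtype.ext x.2⟩) hk hB

theorem perf_ker_prodMap {D : Type u} [AddCommGroup D] [Module S D] (φ : B →ₗ[S] C)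
    (ψ : P →ₗ[S] D) (h1 : Perf S (LinearMap.ker φ)) (h2 : Perf S (LinearMap.ker ψ)) :
    Perf S (LinearMap.ker (φ.prodMap ψ)) := by
  let e : (LinearMap.ker φ × LinearMap.ker ψ) →ₗ[S] LinearMap.ker (φ.prodMap ψ) :=
    LinearMap.codRestrict _ ((LinearMap.ker φ).subtype.prodMap (LinearMap.ker ψ).subtype)
      fun x => Prod.ext x.1.2 x.2.2
  refine (h1.prod h2).congr (LinearEquiv.ofBijective e ⟨?_, ?_⟩)
  · intro x y h
    have h3 := congrArg Subtype.val h
    exact Prod.ext (Subtype.ext (congrArg Prod.fst h3)) (Subtype.ext (congrArg Prod.snd h3))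
  · rintro ⟨⟨x, y⟩, h⟩
    exact ⟨(⟨x, congrArg Prod.fst h⟩, ⟨y, congrArg Prod.snd h⟩), rfl⟩

theorem perf_zero [Subsingleton B] : Perf S B := by
  refine (Perf.free (S := S) (Fin 0)).congr (LinearEquiv.ofBijective 0 ⟨?_, ?_⟩)
  · exact fun x y _ => Subsingleton.elim x y
  · exact fun y => ⟨0, Subsingleton.elim _ _⟩

theorem perf_ker_id : Perf S (LinearMap.ker (LinearMap.id : B →ₗ[S] B)) := by
  have : Subsingleton (LinearMap.ker (LinearMap.id : B →ₗ[S] B)) :=
    ⟨fun x y => Subtype.ext (x.2.trans y.2.symm)⟩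
  exact perf_zero

end Perf

section Kil

variable {A : Type u} [CommRing A] {Γ : Type u} [Group Γ]

/-- Modules killed by an ideal. -/
def Kil (I : Ideal A) (M : Type u) [AddCommGroup M] [Module (MonoidAlgebra A Γ) M] : Prop :=
  ∀ a ∈ I, ∀ m : M, algebraMap A (MonoidAlgebra A Γ) a • m = 0

variable {I J : Ideal A} {M M' : Type u} [AddCommGroup M] [Module (MonoidAlgebra A Γ) M]
  [AddCommGroup M'] [Module (MonoidAlgebra A Γ) M']

theorem Kil.mono (h : I ≤ J) (hM : Kil (Γ := Γ) J M) : Kil (Γ := Γ) I M := fun a ha => hM a (h ha)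

theorem Kil.prod (hM : Kil (Γ := Γ) I M) (hM' : Kil (Γ := Γ) I M') :
    Kil (Γ := Γ) I (M × M') := fun a ha m => Prod.ext (hM a ha m.1) (hM' a ha m.2)

theorem Kil.sub (hM : Kil (Γ := Γ) I M) (N : Submodule (MonoidAlgebra A Γ) M) :
    Kil (Γ := Γ) I N := fun a ha m => Subtype.ext (hM a ha m.1)

theorem Kil.quot (hM : Kil (Γ := Γ) I M) (N : Submodule (MonoidAlgebra A Γ) M) :
    Kil (Γ := Γ) I (M ⧸ N) := fun a ha m => by
  obtain ⟨m, rfl⟩ := N.mkQ_surjective m
  rw [← map_smul, hM a ha, map_zero]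

/-- The elements which kill a module. -/
noncomputable def annih (Γ : Type u) [Group Γ] (M : Type u) [AddCommGroup M] [Module (MonoidAlgebra A Γ) M] :
    Ideal A where
  carrier := {a | ∀ m : M, algebraMap A (MonoidAlgebra A Γ) a • m = 0}
  add_mem' := by
    intro a b ha hb m
    rw [map_add, add_smul, ha, hb, add_zero]
  zero_mem' := fun m => by rw [map_zero, zero_smul]
  smul_mem' := by
    intro r a ha m
    rw [smul_eq_mul, map_mul, mul_smul, ha, smul_zero]

theorem kil_iff : Kil (Γ := Γ) I M ↔ I ≤ annih Γ M := Iff.rfl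

theorem Kil.sup (h1 : Kil (Γ := Γ) I M) (h2 : Kil (Γ := Γ) J M) : Kil (Γ := Γ) (I ⊔ J) M :=
  kil_iff.2 (sup_le h1 h2)

theorem Kil.span {s : Set A} (h : ∀ a ∈ s, ∀ m : M, algebraMap A (MonoidAlgebra A Γ) a • m = 0) :
    Kil (Γ := Γ) (Ideal.span s) M :=
  kil_iff.2 (Ideal.span_le.2 h)

/-- Commuting with coefficients. -/
theorem alg_comm (a : A) (r : MonoidAlgebra A Γ) (m : M) :
    algebraMap A (MonoidAlgebra A Γ) a • r • m = r • algebraMap A (MonoidAlgebra A Γ) a • m := by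
  rw [smul_smul, smul_smul, Algebra.commutes]

/-- The elements killed by `c`. -/
noncomputable def tor (c : A) (M : Type u) [AddCommGroup M] [Module (MonoidAlgebra A Γ) M] :
    Submodule (MonoidAlgebra A Γ) M := LinearMap.ker (cmul (T := MonoidAlgebra A Γ) c M)

theorem mem_tor {c : A} {m : M} :
    m ∈ tor (Γ := Γ) c M ↔ algebraMap A (MonoidAlgebra A Γ) c • m = 0 := Iff.rfl

end Kil

section EI

variable {A : Type u} [CommRing A] {Γ : Type u} [Group Γ]

/-- The free module with coefficients modulo `I`. -/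
abbrev EI (Γ : Type u) [Group Γ] (ι : Type) (I : Ideal A) : Type u :=
  (ι → MonoidAlgebra A Γ) ⧸ csub Γ (fun _ : ι => I)

variable {I J : Ideal A} {ι κ : Type}

theorem kil_EI : Kil (Γ := Γ) I (EI Γ ι I) := by
  intro a ha m
  obtain ⟨v, rfl⟩ := Submodule.mkQ_surjective _ m
  rw [← map_smul]
  refine (Submodule.Quotient.mk_eq_zero _).2 fun i g => ?_
  rw [Pi.smul_apply, smul_eq_mul, coeff_algebraMap_mul]
  exact I.mul_mem_right _ ha

/-- The reduction. -/
noncomputable def rd (h : I ≤ J) (Γ : Type u) [Group Γ] (ι : Type) :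
    EI Γ ι I →ₗ[MonoidAlgebra A Γ] EI Γ ι J :=
  Submodule.mapQ _ _ LinearMap.id fun _ hv i g => h (hv i g)

theorem rd_mk (h : I ≤ J) (v : ι → MonoidAlgebra A Γ) :
    rd h Γ ι ((csub Γ fun _ => I).mkQ v) = (csub Γ fun _ => J).mkQ v := rfl

theorem rd_surjective (h : I ≤ J) : Function.Surjective (rd h Γ ι) := by
  intro m
  obtain ⟨v, rfl⟩ := Submodule.mkQ_surjective _ m
  exact ⟨(csub Γ fun _ => I).mkQ v, rfl⟩

theorem rd_eq_zero (h : I ≤ J) (v : ι → MonoidAlgebra A Γ) :
    rd h Γ ι ((csub Γ fun _ => I).mkQ v) = 0 ↔ ∀ i g, (v i).coeff g ∈ J := by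
  rw [rd_mk]
  exact Submodule.Quotient.mk_eq_zero _

/-- Maps to modules killed by `I`. -/
theorem exists_EI_map {M : Type u} [AddCommGroup M] [Module (MonoidAlgebra A Γ) M]
    (hM : Kil (Γ := Γ) I M) [Fintype ι] (b : ι → M) :
    ∃ F : EI Γ ι I →ₗ[MonoidAlgebra A Γ] M, ∀ v, F ((csub Γ fun _ => I).mkQ v) = ∑ i, v i • b i :=
  ⟨(csub Γ fun _ => I).liftQ (Fintype.linearCombination (MonoidAlgebra A Γ) b) fun v hv => by
      rw [LinearMap.mem_ker, Fintype.linearCombination_apply]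
      exact Finset.sum_eq_zero fun i _ => smul_eq_zero_of_coeff hM _ (hv i) _,
    fun v => Fintype.linearCombination_apply _ _ _⟩

theorem exists_EI_surj {M : Type u} [AddCommGroup M] [Module (MonoidAlgebra A Γ) M]
    (hM : Kil (Γ := Γ) I M) [Module.Finite (MonoidAlgebra A Γ) M] :
    ∃ (n : ℕ) (F : EI Γ (Fin n) I →ₗ[MonoidAlgebra A Γ] M), Function.Surjective F := by
  obtain ⟨n, g, hg⟩ := Module.Finite.exists_fin (R := MonoidAlgebra A Γ) (M := M)
  obtain ⟨F, hF⟩ := exists_EI_map (ι := Fin n) hM g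
  refine ⟨n, F, fun y => ?_⟩
  have hy : y ∈ Submodule.span (MonoidAlgebra A Γ) (Set.range g) := by
    rw [hg]
    exact Submodule.mem_top
  rw [← Fintype.range_linearCombination] at hy
  obtain ⟨v, hv⟩ := hy
  exact ⟨(csub Γ fun _ => I).mkQ v, by rw [hF, ← hv, Fintype.linearCombination_apply]⟩

/-- Lifting maps. -/
theorem exists_EI_lift {M N : Type u} [AddCommGroup M] [Module (MonoidAlgebra A Γ) M]
    [AddCommGroup N] [Module (MonoidAlgebra A Γ) N] (hM : Kil (Γ := Γ) I M) [Fintype ι]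
    (ρ : M →ₗ[MonoidAlgebra A Γ] N) (hρ : Function.Surjective ρ)
    (f : EI Γ ι I →ₗ[MonoidAlgebra A Γ] N) :
    ∃ F : EI Γ ι I →ₗ[MonoidAlgebra A Γ] M, ∀ x, ρ (F x) = f x := by
  classical
  choose b hb using fun i : ι => hρ (f ((csub Γ fun _ => I).mkQ (Pi.single i 1)))
  obtain ⟨F, hF⟩ := exists_EI_map hM b
  refine ⟨F, fun x => ?_⟩
  obtain ⟨v, rfl⟩ := Submodule.mkQ_surjective _ x
  rw [hF, map_sum]
  have h1 : v = ∑ i, v i • (Pi.single i 1 : ι → MonoidAlgebra A Γ) := by
    funext l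
    rw [Finset.sum_apply, Finset.sum_eq_single l]
    · rw [Pi.smul_apply, Pi.single_eq_same, smul_eq_mul, mul_one]
    · intro k _ hk
      rw [Pi.smul_apply, Pi.single_eq_of_ne (Ne.symm hk), smul_zero]
    · exact fun h => absurd (Finset.mem_univ l) h
  conv_rhs => rw [h1]
  rw [map_sum, map_sum]
  refine Finset.sum_congr rfl fun i _ => ?_
  rw [map_smul, map_smul, map_smul, hb]

/-- Sums. -/
theorem exists_EI_sum : ∃ p : EI Γ (ι ⊕ κ) I →ₗ[MonoidAlgebra A Γ] EI Γ ι I × EI Γ κ I,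
    Function.Bijective p := by
  let p₁ : EI Γ (ι ⊕ κ) I →ₗ[MonoidAlgebra A Γ] EI Γ ι I :=
    Submodule.mapQ _ _ (LinearMap.funLeft _ _ Sum.inl) fun _ hv i g => hv (Sum.inl i) g
  let p₂ : EI Γ (ι ⊕ κ) I →ₗ[MonoidAlgebra A Γ] EI Γ κ I :=
    Submodule.mapQ _ _ (LinearMap.funLeft _ _ Sum.inr) fun _ hv i g => hv (Sum.inr i) g
  refine ⟨p₁.prod p₂, ?_, ?_⟩
  · rw [injective_iff_map_eq_zero]
    intro x hx
    obtain ⟨v, rfl⟩ := Submodule.mkQ_surjective _ x
    refine (Submodule.Quotient.mk_eq_zero _).2 fun i g => ?_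
    have h1 : (csub Γ fun _ : ι => I).mkQ (LinearMap.funLeft _ _ Sum.inl v) = 0 :=
      congrArg Prod.fst hx
    have h2 : (csub Γ fun _ : κ => I).mkQ (LinearMap.funLeft _ _ Sum.inr v) = 0 :=
      congrArg Prod.snd hx
    rcases i with i | i
    · exact (Submodule.Quotient.mk_eq_zero _).1 h1 i g
    · exact (Submodule.Quotient.mk_eq_zero _).1 h2 i g
  · rintro ⟨x, y⟩
    obtain ⟨v, rfl⟩ := Submodule.mkQ_surjective _ x
    obtain ⟨w, rfl⟩ := Submodule.mkQ_surjective _ y
    exact ⟨(csub Γ fun _ => I).mkQ (Sum.elim v w), rfl⟩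

variable (hA : ∀ (N : Type u) [AddCommGroup N] [Module A N], Module.Finite A N → Perf A N)

include hA in
theorem perf_EI [Finite ι] : Perf (MonoidAlgebra A Γ) (EI Γ ι I) := perf_csub hA _

include hA in
theorem perf_ker_rd [Finite ι] (h : I ≤ J) :
    Perf (MonoidAlgebra A Γ) (LinearMap.ker (rd h Γ ι)) :=
  Perf.ker _ (rd_surjective h) (perf_EI hA) (perf_EI hA)

include hA in
/-- The elements killed by an ideal. -/
theorem perf_qker [Finite ι] (a : Ideal A) :
    Perf (MonoidAlgebra A Γ) (qker (Γ := Γ) a (EI Γ ι I)) := by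
  let J : Ideal A :=
    { carrier := {x | ∀ b ∈ a, b * x ∈ I}
      add_mem' := by
        intro x y hx hy b hb
        rw [mul_add]
        exact I.add_mem (hx b hb) (hy b hb)
      zero_mem' := fun b _ => by
        rw [mul_zero]
        exact I.zero_mem
      smul_mem' := by
        intro r x hx b hb
        have h1 : b * (r • x) = r * (b * x) := by
          rw [smul_eq_mul]
          ring
        rw [h1]
        exact I.mul_mem_left _ (hx b hb) }
  have hIJ : I ≤ J := fun x hx b _ => I.mul_mem_left _ hx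
  have h1 : LinearMap.ker (rd hIJ Γ ι) = qker (Γ := Γ) a (EI Γ ι I) := by
    ext x
    obtain ⟨v, rfl⟩ := Submodule.mkQ_surjective _ x
    rw [LinearMap.mem_ker, rd_eq_zero, mem_qker]
    constructor
    · intro h b hb
      rw [← map_smul]
      refine (Submodule.Quotient.mk_eq_zero _).2 fun i g => ?_
      rw [Pi.smul_apply, smul_eq_mul, coeff_algebraMap_mul]
      exact h i g b hb
    · intro h i g b hb
      have h2 := h b hb
      rw [← map_smul] at h2
      have h3 := (Submodule.Quotient.mk_eq_zero _).1 h2 i g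
      rwa [Pi.smul_apply, smul_eq_mul, coeff_algebraMap_mul] at h3
  rw [← h1]
  exact perf_ker_rd hA hIJ

include hA in
theorem perf_tor [Finite ι] (c : A) :
    Perf (MonoidAlgebra A Γ) (tor (Γ := Γ) c (EI Γ ι I)) := by
  have h1 : qker (Γ := Γ) (Ideal.span {c}) (EI Γ ι I) = tor (Γ := Γ) c (EI Γ ι I) := by
    ext x
    rw [mem_qker, mem_tor]
    constructor
    · intro h
      exact h c (Ideal.mem_span_singleton_self c)
    · intro h b hb
      obtain ⟨d, rfl⟩ := Ideal.mem_span_singleton.1 hb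
      rw [mul_comm, map_mul, mul_smul, h, smul_zero]
  rw [← h1]
  exact perf_qker hA _

end EI

end Pool.Agent.Lib.MP_551055_al.T6
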