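import Mathlib
import Pool.Agent.Lib.MP_551055_al.Trim.LD.NG
import Pool.Agent.Lib.MP_551055_al.Trim.T4.Alg
import Pool.Agent.Lib.MP_551055_al.Trim.T4.Chi
import Pool.Agent.Lib.MP_551055_al.Trim.T4.Csub
import Pool.Agent.Lib.MP_551055_al.Trim.T4.Gen
import Pool.Agent.Lib.MP_551055_al.Trim.T4.Perf
import Pool.Agent.Lib.MP_551055_al.Trim.T6.Basic

/-!
# Generically free modules killed by a prime ideal of the coefficients
-/

set_option autoImplicit false

namespace Pool.Agent.Lib.MP_551055_al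
end Pool.Agent.Lib.MP_551055_al

namespace Pool.Agent.Lib.MP_551055_al.LS
end Pool.Agent.Lib.MP_551055_al.LS

namespace Pool.Agent.Lib.MP_551055_al.T4
end Pool.Agent.Lib.MP_551055_al.T4

namespace Pool.Agent.Lib.MP_551055_al.T6

open Pool.Agent.Lib.MP_551055_al

open Pool.Agent.Lib.MP_551055_al.LS

open Pool.Agent.Lib.MP_551055_al.T4

universe u

section

variable {A : Type u} [CommRing A] {Γ : Type u} [Group Γ]

/-- The module is generically free over `(A / q)[Γ]`. -/
def GenF (q : Ideal A) (M : Type u) [AddCommGroup M] [Module (MonoidAlgebra A Γ) M] : Prop :=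
  ∃ (c : A) (ν : Type) (_ : Fintype ν)
    (β : (ν → MonoidAlgebra A Γ) →ₗ[MonoidAlgebra A Γ] M), c ∉ q ∧
    (∀ v, β v = 0 ↔ v ∈ csub Γ fun _ => q) ∧
    ∀ y, ∃ v, β v = algebraMap A (MonoidAlgebra A Γ) c • y

variable {q : Ideal A} {M M' : Type u} [AddCommGroup M] [Module (MonoidAlgebra A Γ) M]
  [AddCommGroup M'] [Module (MonoidAlgebra A Γ) M']

theorem one_notMem (q : Ideal A) [q.IsPrime] : (1 : A) ∉ q :=
  (Ideal.ne_top_iff_one q).1 (Ideal.IsPrime.ne_top inferInstance)

theorem mul_notMem [q.IsPrime] {a b : A} (ha : a ∉ q) (hb : b ∉ q) : a * b ∉ q := fun h =>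
  (Ideal.IsPrime.mem_or_mem inferInstance h).elim ha hb

theorem genF_EI [q.IsPrime] (ι : Type) [Fintype ι] : GenF (Γ := Γ) q (EI Γ ι q) := by
  refine ⟨1, ι, inferInstance, (csub Γ fun _ => q).mkQ, one_notMem q, fun v => ?_, fun y => ?_⟩
  · exact Submodule.Quotient.mk_eq_zero _
  · obtain ⟨v, rfl⟩ := Submodule.mkQ_surjective _ y
    exact ⟨v, by rw [map_one, one_smul]⟩

theorem genF_qker [IsNoetherianRing A] [q.IsPrime] (ι : Type) [Finite ι] (J : Ideal A) :
    GenF (Γ := Γ) q (qker (Γ := Γ) q (EI Γ ι J)) := by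
  obtain ⟨c, n, β, hc, hβ, h0, h1⟩ := exists_gen_socle q (fun _ : ι => J) Γ
  refine ⟨c, Fin n, inferInstance, LinearMap.codRestrict _ β hβ, hc, fun v => ?_, fun y => ?_⟩
  · rw [← redv_eq_zero, ← h0]
    constructor
    · intro h
      exact congrArg Subtype.val h
    · intro h
      exact Subtype.ext h
  · obtain ⟨v, hv⟩ := h1 y.1 y.2
    exact ⟨v, Subtype.ext hv⟩

theorem GenF.prod [q.IsPrime] (h : GenF (Γ := Γ) q M) (h' : GenF (Γ := Γ) q M') :
    GenF (Γ := Γ) q (M × M') := by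
  obtain ⟨c, ν, _, β, hc, h0, h1⟩ := h
  obtain ⟨c', ν', _, β', hc', h0', h1'⟩ := h'
  refine ⟨c * c', ν ⊕ ν', inferInstance,
    (β ∘ₗ LinearMap.funLeft _ _ Sum.inl).prod (β' ∘ₗ LinearMap.funLeft _ _ Sum.inr),
    mul_notMem hc hc', fun v => ?_, fun y => ?_⟩
  · constructor
    · intro h i g
      rcases i with i | i
      · exact (h0 _).1 (congrArg Prod.fst h) i g
      · exact (h0' _).1 (congrArg Prod.snd h) i g
    · intro h
      exact Prod.ext ((h0 _).2 fun i g => h (Sum.inl i) g)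
        ((h0' _).2 fun i g => h (Sum.inr i) g)
  · obtain ⟨v, hv⟩ := h1 y.1
    obtain ⟨v', hv'⟩ := h1' y.2
    refine ⟨Sum.elim (algebraMap A (MonoidAlgebra A Γ) c' • v)
      (algebraMap A (MonoidAlgebra A Γ) c • v'), Prod.ext ?_ ?_⟩
    · change β (algebraMap A (MonoidAlgebra A Γ) c' • v) = _
      rw [map_smul, hv, mul_comm, map_mul, mul_smul]
      rfl
    · change β' (algebraMap A (MonoidAlgebra A Γ) c • v') = _
      rw [map_smul, hv', map_mul, mul_smul]
      rfl

theorem GenF.pi {l : ℕ} (h : GenF (Γ := Γ) q M) : GenF (Γ := Γ) q (Fin l → M) := by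
  obtain ⟨c, ν, _, β, hc, h0, h1⟩ := h
  refine ⟨c, Fin l × ν, inferInstance,
    LinearMap.pi fun k => β ∘ₗ LinearMap.funLeft _ _ fun i => (k, i),
    hc, fun v => ?_, fun y => ?_⟩
  · constructor
    · rintro h ⟨k, i⟩ g
      exact (h0 _).1 (congrFun h k) i g
    · intro h
      funext k
      exact (h0 _).2 fun i g => h (k, i) g
  · choose v hv using fun k => h1 (y k)
    exact ⟨fun p => v p.1 p.2, funext fun k => hv k⟩

/-- The generic coordinates. -/
theorem GenF.exists_coord (h : GenF (Γ := Γ) q M) :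
    ∃ (c : A) (n : ℕ) (β : (Fin n → MonoidAlgebra A Γ) →ₗ[MonoidAlgebra A Γ] M)
      (α : M →ₛₗ[red q Γ] (Fin n → MonoidAlgebra (A ⧸ q) Γ)), c ∉ q ∧
      (∀ v, β v = 0 ↔ redv q v = 0) ∧
      (∀ y v, β v = algebraMap A (MonoidAlgebra A Γ) c • y → α y = redv q v) ∧
      ∀ y v, α y = redv q v → β v = algebraMap A (MonoidAlgebra A Γ) c • y := by
  classical
  obtain ⟨c, ν, _, β₀, hc, h0', h1'⟩ := h
  let e : ν ≃ Fin (Fintype.card ν) := Fintype.equivFin ν
  let β : (Fin (Fintype.card ν) → MonoidAlgebra A Γ) →ₗ[MonoidAlgebra A Γ] M :=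
    β₀ ∘ₗ LinearMap.funLeft _ _ e
  have h0 : ∀ v, β v = 0 ↔ redv q v = 0 := by
    intro v
    rw [redv_eq_zero]
    change β₀ (fun i => v (e i)) = 0 ↔ _
    rw [h0']
    constructor
    · intro h i g
      have h2 := h (e.symm i) g
      change (v (e (e.symm i))).coeff g ∈ q at h2
      rwa [e.apply_symm_apply] at h2
    · intro h i g
      exact h (e i) g
  have h1 : ∀ y, ∃ v, β v = algebraMap A (MonoidAlgebra A Γ) c • y := by
    intro y
    obtain ⟨v, hv⟩ := h1' y
    refine ⟨fun i => v (e.symm i), ?_⟩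
    rw [← hv]
    change β₀ (fun i => v (e.symm (e i))) = _
    congr 1
    funext i
    rw [e.symm_apply_apply]
  have hwd : ∀ v v', β v = β v' → redv q v = redv q v' := by
    intro v v' h
    rw [← sub_eq_zero, ← map_sub] at h ⊢
    exact (h0 _).1 h
  have hwd' : ∀ v v', redv q v = redv q v' → β v = β v' := by
    intro v v' h
    rw [← sub_eq_zero, ← map_sub] at h ⊢
    exact (h0 _).2 h
  choose w hw using h1
  refine ⟨c, _, β,
    { toFun := fun y => redv q (w y)
      map_add' := fun y y' => ?_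
      map_smul' := fun r y => ?_ }, hc, h0, ?_, ?_⟩
  · rw [← map_add]
    apply hwd
    rw [map_add, hw, hw, hw, ← smul_add]
  · rw [← map_smulₛₗ]
    apply hwd
    rw [map_smul, hw, hw, alg_comm]
  · intro y v hv
    change redv q (w y) = _
    apply hwd
    rw [hw, hv]
  · intro y v hv
    rw [← hw y]
    exact hwd' _ _ hv.symm

/-- Kernels of maps between generically free modules. -/
theorem genLFq_ker [q.IsPrime] (hD : TWO.{u, u} Γ) (hM : GenF (Γ := Γ) q M)
    (hM' : GenF (Γ := Γ) q M') (kM : Kil (Γ := Γ) q M) (u : M →ₗ[MonoidAlgebra A Γ] M') :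
    GenLFq q Γ (LinearMap.ker u) := by
  classical
  obtain ⟨c, n, β, α, hc, h0, h1, h2⟩ := hM.exists_coord
  obtain ⟨c', n', β', α', hc', h0', h1', h2'⟩ := hM'.exists_coord
  obtain ⟨Φ, hΦ⟩ := exists_descend q ((α'.comp u).comp β)
  have hker : ∀ y : LinearMap.ker u, Φ (α y.1) = 0 := by
    intro y
    obtain ⟨v, hv⟩ := redv_surjective q (α y.1)
    rw [← hv, hΦ]
    change α' (u (β v)) = 0
    rw [h2 _ _ hv.symm, map_smul, LinearMap.mem_ker.1 y.2, smul_zero, map_zero]
  refine genLFq_of q (fun a ha y => Subtype.ext (kM a ha y.1))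
    (genLF_ker_fin (B := A ⧸ q) hD Φ)
    { toFun := fun y => ⟨α y.1, hker y⟩
      map_add' := fun y y' => Subtype.ext (map_add α _ _)
      map_smul' := fun r y => Subtype.ext (map_smulₛₗ α _ _) } ?_ ?_
  · rintro ⟨z, hz⟩
    obtain ⟨v, rfl⟩ := redv_surjective q z
    rw [LinearMap.mem_ker, hΦ] at hz
    have hz' : α' (u (β v)) = redv q 0 := by rw [map_zero]; exact hz
    have h3 := h2' _ _ hz'
    rw [map_zero] at h3
    refine ⟨c * c', mul_notMem hc hc', ⟨algebraMap A (MonoidAlgebra A Γ) c' • β v, ?_⟩, ?_⟩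
    · rw [LinearMap.mem_ker, map_smul]
      exact h3.symm
    · apply Subtype.ext
      change α (algebraMap A (MonoidAlgebra A Γ) c' • β v) =
        red q Γ (algebraMap A (MonoidAlgebra A Γ) (c * c')) • redv q v
      have h5 : red q Γ (algebraMap A (MonoidAlgebra A Γ) (c * c')) • redv q v =
          redv q (algebraMap A (MonoidAlgebra A Γ) (c * c') • v) :=
        (LinearMap.map_smulₛₗ (redv (Γ := Γ) q) _ v).symm
      rw [h5]
      apply h1
      rw [map_smul, map_mul, mul_smul]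
  · intro y hy
    refine ⟨c, hc, Subtype.ext ?_⟩
    have h3 : α y.1 = redv q 0 := by
      rw [map_zero]
      exact congrArg Subtype.val hy
    have h4 := h2 _ _ h3
    rw [map_zero] at h4
    exact h4.symm

/-- The form of generic local freeness with injective maps. -/
theorem genLFq_inj {K : Type u} [AddCommGroup K] [Module (MonoidAlgebra A Γ) K]
    (h : GenLFq q Γ K) (s : Set K) (hs : s.Finite) :
    ∃ (c : A) (n m : ℕ) (j : EI Γ (Fin n) q →ₗ[MonoidAlgebra A Γ] K × EI Γ (Fin m) q),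
      c ∉ q ∧ Function.Injective j ∧
      ∀ y ∈ s, ∃ v, j v = (algebraMap A (MonoidAlgebra A Γ) c • y, 0) := by
  obtain ⟨c, n, m, j, hc, h0, h1⟩ := h hs.toFinset
  refine ⟨c, n, m, (csub Γ fun _ => q).liftQ j fun v hv => (h0 v).2 hv, hc, ?_, ?_⟩
  · rw [injective_iff_map_eq_zero]
    intro x hx
    obtain ⟨v, rfl⟩ := Submodule.mkQ_surjective _ x
    exact (Submodule.Quotient.mk_eq_zero _).2 ((h0 v).1 hx)
  · intro y hy
    obtain ⟨v, hv⟩ := h1 y (hs.mem_toFinset.2 hy)
    exact ⟨(csub Γ fun _ => q).mkQ v, hv⟩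

end

end Pool.Agent.Lib.MP_551055_al.T6
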