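import Mathlib
import Pool.Agent.Lib.MP_551055_al.Trim.LD.NG
import Pool.Agent.Lib.MP_551055_al.Trim.T4.Alg
import Pool.Agent.Lib.MP_551055_al.Trim.T4.Csub
import Pool.Agent.Lib.MP_551055_al.Trim.T4.Perf
import Pool.Agent.Lib.MP_551055_al.Trim.T6.Basic

/-!
# Stably locally perfect kernels of maps between modules killed by an ideal
-/

set_option autoImplicit false

namespace Pool.Agent.Lib.MP_551055_al
end Pool.Agent.Lib.MP_551055_al

namespace Pool.Agent.Lib.MP_551055_al.LS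
end Pool.Agent.Lib.MP_551055_al.LS

namespace Pool.Agent.Lib.MP_551055_al.T4
end Pool.Agent.Lib.MP_551055_al.T4

namespace Pool.Agent.Lib.MP_551055_al.T6

open Pool.Agent.Lib.MP_551055_al

open Pool.Agent.Lib.MP_551055_al.LS

open Pool.Agent.Lib.MP_551055_al.T4

universe u

section

variable {A : Type u} [CommRing A] {Γ : Type u} [Group Γ]

/-- The finite subset `s` of the kernel of `f` is contained in a perfect submodule of the product
of the kernel with a perfect module killed by `I`. -/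
def HasV (I : Ideal A) {X Y : Type u} [AddCommGroup X] [Module (MonoidAlgebra A Γ) X]
    [AddCommGroup Y] [Module (MonoidAlgebra A Γ) Y] (f : X →ₗ[MonoidAlgebra A Γ] Y)
    (s : Set X) : Prop :=
  ∃ (Q : Type u) (_ : AddCommGroup Q) (_ : Module (MonoidAlgebra A Γ) Q),
    Perf (MonoidAlgebra A Γ) Q ∧ Kil (Γ := Γ) I Q ∧
    ∃ V : Submodule (MonoidAlgebra A Γ) (X × Q), Perf (MonoidAlgebra A Γ) V ∧
      (∀ y ∈ s, (y, (0 : Q)) ∈ V) ∧ ∀ v ∈ V, f v.1 = 0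

/-- The kernels of maps between perfect modules killed by `I` are stably locally perfect. -/
def LPI (Γ : Type u) [Group Γ] (I : Ideal A) : Prop :=
  ∀ (X Y : Type u) [AddCommGroup X] [Module (MonoidAlgebra A Γ) X]
    [AddCommGroup Y] [Module (MonoidAlgebra A Γ) Y] (f : X →ₗ[MonoidAlgebra A Γ] Y),
    Perf (MonoidAlgebra A Γ) X → Perf (MonoidAlgebra A Γ) Y → Kil (Γ := Γ) I X →
    Kil (Γ := Γ) I Y → ∀ s : Set X, s.Finite → (∀ y ∈ s, f y = 0) → HasV I f s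

variable (hA : ∀ (N : Type u) [AddCommGroup N] [Module A N], Module.Finite A N → Perf A N)

include hA in
/-- It suffices to consider free modules over `(A / I)[Γ]`. -/
theorem lpi_of_free (I : Ideal A)
    (h : ∀ (ι κ : Type) [Fintype ι] [Fintype κ]
      (f : EI Γ ι I →ₗ[MonoidAlgebra A Γ] EI Γ κ I) (s : Set (EI Γ ι I)), s.Finite →
      (∀ y ∈ s, f y = 0) → HasV I f s) : LPI Γ I := by
  intro X Y _ _ _ _ f hX hY kX kY s hs hsf
  have : Module.Finite (MonoidAlgebra A Γ) X := hX.finite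
  have : Module.Finite (MonoidAlgebra A Γ) Y := hY.finite
  obtain ⟨n, π, hπ⟩ := exists_EI_surj kX
  obtain ⟨a, ρ, hρ⟩ := exists_EI_surj kY
  have hkπ : Perf (MonoidAlgebra A Γ) (LinearMap.ker π) := Perf.ker π hπ (perf_EI hA) hX
  have hkρ : Perf (MonoidAlgebra A Γ) (LinearMap.ker ρ) := Perf.ker ρ hρ (perf_EI hA) hY
  obtain ⟨F, hF⟩ := exists_EI_lift (ι := Fin n) kil_EI ρ hρ (f ∘ₗ π)
  have : Module.Finite (MonoidAlgebra A Γ) (LinearMap.ker ρ) := hkρ.finite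
  obtain ⟨b, σ, hσ⟩ := exists_EI_surj (Kil.sub kil_EI (LinearMap.ker ρ))
  obtain ⟨p, hp⟩ := exists_EI_sum (Γ := Γ) (I := I) (ι := Fin n) (κ := Fin b)
  let p' := LinearEquiv.ofBijective p hp
  -- the map between free modules
  let H : EI Γ (Fin n) I × EI Γ (Fin b) I →ₗ[MonoidAlgebra A Γ] EI Γ (Fin a) I :=
    F ∘ₗ LinearMap.fst _ _ _ - (LinearMap.ker ρ).subtype ∘ₗ σ ∘ₗ LinearMap.snd _ _ _
  have hH : ∀ z, H z = F z.1 - (σ z.2).1 := fun z => rfl
  -- the part over zero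
  let K₁ : Submodule (MonoidAlgebra A Γ) (EI Γ (Fin n) I × EI Γ (Fin b) I) :=
    LinearMap.ker (π ∘ₗ LinearMap.fst _ _ _) ⊓ LinearMap.ker H
  have hK₁ : ∀ z, z ∈ K₁ ↔ π z.1 = 0 ∧ H z = 0 := fun z => Iff.rfl
  have hFk : ∀ x ∈ LinearMap.ker π, F x ∈ LinearMap.ker ρ := by
    intro x hx
    rw [LinearMap.mem_ker, hF, LinearMap.comp_apply, LinearMap.mem_ker.1 hx, map_zero]
  have hK₁p : Perf (MonoidAlgebra A Γ) K₁ := by
    let q : (LinearMap.ker π × EI Γ (Fin b) I) →ₗ[MonoidAlgebra A Γ] LinearMap.ker ρ :=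
      LinearMap.restrict F hFk ∘ₗ LinearMap.fst _ _ _ - σ ∘ₗ LinearMap.snd _ _ _
    have hq : ∀ z, q z = ⟨F z.1.1, hFk _ z.1.2⟩ - σ z.2 := fun z => rfl
    have hqs : Function.Surjective q := by
      intro y
      obtain ⟨x, hx⟩ := hσ (-y)
      refine ⟨(0, x), ?_⟩
      rw [hq, hx, sub_neg_eq_add]
      have h1 : (⟨F ((0 : LinearMap.ker π) : EI Γ (Fin n) I), hFk _ (0 : LinearMap.ker π).2⟩ :
          LinearMap.ker ρ) = 0 := Subtype.ext (map_zero F)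
      rw [h1, zero_add]
    refine (Perf.ker q hqs (hkπ.prod (perf_EI hA)) hkρ).congr (LinearEquiv.ofBijective
      (LinearMap.codRestrict K₁ (((LinearMap.ker π).subtype.prodMap LinearMap.id) ∘ₗ
        (LinearMap.ker q).subtype) ?_) ⟨?_, ?_⟩)
    · rintro ⟨z, hz⟩
      refine (hK₁ _).2 ⟨z.1.2, ?_⟩
      have h1 := congrArg Subtype.val (LinearMap.mem_ker.1 hz)
      exact h1
    · rintro ⟨⟨z, w⟩, hz⟩ ⟨⟨z', w'⟩, hz'⟩ hzz
      have h1 : ((z : EI Γ (Fin n) I), w) = ((z' : EI Γ (Fin n) I), w') :=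
        congrArg Subtype.val hzz
      have h2 : z = z' := Subtype.ext (congrArg Prod.fst h1)
      have h3 : w = w' := congrArg Prod.snd h1
      subst h2 h3
      rfl
    · rintro ⟨z, hz⟩
      refine ⟨⟨(⟨z.1, hz.1⟩, z.2), ?_⟩, rfl⟩
      rw [LinearMap.mem_ker]
      exact Subtype.ext hz.2
  have hfg : K₁.FG := Module.Finite.iff_fg.1 hK₁p.finite
  obtain ⟨t, ht⟩ := hfg
  -- the lifts of the elements of `s`
  have hlift : ∀ y : s, ∃ z : EI Γ (Fin n) I × EI Γ (Fin b) I, π z.1 = y.1 ∧ H z = 0 := by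
    intro y
    obtain ⟨x, hx⟩ := hπ y.1
    have h1 : F x ∈ LinearMap.ker ρ := by
      rw [LinearMap.mem_ker, hF, LinearMap.comp_apply, hx, hsf y.1 y.2]
    obtain ⟨w, hw⟩ := hσ ⟨F x, h1⟩
    refine ⟨(x, w), hx, ?_⟩
    rw [hH, hw, sub_self]
  choose z hz1 hz2 using hlift
  have := hs.to_subtype
  obtain ⟨Q, _, _, hQ, kQ, V, hV, hsV, hfV⟩ := h (Fin n ⊕ Fin b) (Fin a) (H ∘ₗ p)
    (Set.range (fun y : s => p'.symm (z y)) ∪ p'.symm '' (t : Set _))
    ((Set.finite_range _).union (t.finite_toSet.image _)) (by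
      rintro y (⟨y, rfl⟩ | ⟨y, hy, rfl⟩)
      · change H (p' (p'.symm (z y))) = 0
        rw [LinearEquiv.apply_symm_apply, hz2]
      · change H (p' (p'.symm y)) = 0
        rw [LinearEquiv.apply_symm_apply]
        have h1 : y ∈ K₁ := by
          rw [← ht]
          exact Submodule.subset_span hy
        exact h1.2)
  -- the image in `X × Q`
  let φ : EI Γ (Fin n ⊕ Fin b) I × Q →ₗ[MonoidAlgebra A Γ] X × Q :=
    (π ∘ₗ LinearMap.fst _ _ _ ∘ₗ p).prodMap LinearMap.id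
  have hφ : ∀ v, φ v = (π (p v.1).1, v.2) := fun v => rfl
  let N : Submodule (MonoidAlgebra A Γ) (EI Γ (Fin n ⊕ Fin b) I × Q) :=
    K₁.map (LinearMap.inl _ _ _ ∘ₗ p'.symm.toLinearMap)
  have hN : ∀ v, v ∈ N ↔ p v.1 ∈ K₁ ∧ v.2 = 0 := by
    intro v
    constructor
    · rintro ⟨y, hy, rfl⟩
      refine ⟨?_, rfl⟩
      change p' (p'.symm y) ∈ K₁
      rwa [LinearEquiv.apply_symm_apply]
    · rintro ⟨h1, h2⟩
      refine ⟨p v.1, h1, Prod.ext ?_ h2.symm⟩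
      exact p'.symm_apply_apply v.1
  have hNp : Perf (MonoidAlgebra A Γ) N := perf_map_inj _
    (LinearMap.inl_injective.comp p'.symm.injective) _ hK₁p
  have hNV : N ≤ V := by
    rw [Submodule.map_le_iff_le_comap, ← ht, Submodule.span_le]
    intro y hy
    exact hsV (p'.symm y) (Or.inr ⟨y, hy, rfl⟩)
  refine ⟨Q, inferInstance, inferInstance, hQ, kQ, V.map φ,
    perf_map φ V N hNp hNV (fun v hv => ?_) hV, ?_, ?_⟩
  · rw [hN, hK₁, hφ, Prod.mk_eq_zero]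
    exact ⟨fun h1 => ⟨⟨h1.1, hfV v hv⟩, h1.2⟩, fun h1 => ⟨h1.1.1, h1.2⟩⟩
  · intro y hy
    refine ⟨(p'.symm (z ⟨y, hy⟩), 0), hsV _ (Or.inl ⟨⟨y, hy⟩, rfl⟩), ?_⟩
    rw [hφ]
    refine Prod.ext ?_ rfl
    change π (p' (p'.symm (z ⟨y, hy⟩))).1 = y
    rw [LinearEquiv.apply_symm_apply, hz1]
  · rintro _ ⟨v, hv, rfl⟩
    rw [hφ]
    change f (π (p v.1).1) = 0
    have h1 : H (p v.1) = 0 := hfV v hv
    rw [hH, sub_eq_zero] at h1
    have h2 := hF (p v.1).1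
    rw [h1] at h2
    rw [← LinearMap.comp_apply, ← h2]
    exact (σ (p v.1).2).2

/-- The second half of step A. -/
theorem stepA_aux (I : Ideal A) (c : A) (hI : LPI Γ (I ⊔ Ideal.span {c}))
    {E G Q V X : Type u} [AddCommGroup E] [Module (MonoidAlgebra A Γ) E]
    [AddCommGroup G] [Module (MonoidAlgebra A Γ) G]
    [AddCommGroup Q] [Module (MonoidAlgebra A Γ) Q]
    [AddCommGroup V] [Module (MonoidAlgebra A Γ) V]
    [AddCommGroup X] [Module (MonoidAlgebra A Γ) X]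
    (hQ : Perf (MonoidAlgebra A Γ) Q) (hV : Perf (MonoidAlgebra A Γ) V)
    (hX : Perf (MonoidAlgebra A Γ) X)
    (hGc : Perf (MonoidAlgebra A Γ) (tor (Γ := Γ) c G))
    (kX : Kil (Γ := Γ) I X) (kG : Kil (Γ := Γ) I G) (kQ : Kil (Γ := Γ) I Q)
    (ν : V →ₗ[MonoidAlgebra A Γ] X) (hν : Function.Injective ν)
    (hcX : ∀ x : X, algebraMap A (MonoidAlgebra A Γ) c • x ∈ LinearMap.range ν)
    (χ : X →ₗ[MonoidAlgebra A Γ] E × Q) (hχ : Function.Injective χ)
    (f : E →ₗ[MonoidAlgebra A Γ] G) (hfν : ∀ v, f (χ (ν v)).1 = 0)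
    (s : Set E) (hs : s.Finite) (hsf : ∀ y ∈ s, f y = 0)
    (hsX : ∀ y ∈ s, ∃ x : X, χ x = (y, 0)) :
    HasV I f s := by
  classical
  have := hs.to_subtype
  have hN : Perf (MonoidAlgebra A Γ) (LinearMap.range ν) := perf_range ν hν hV
  have hX₂ : Perf (MonoidAlgebra A Γ) (X ⧸ LinearMap.range ν) := Perf.quot _ hN hX
  have kX₂ : Kil (Γ := Γ) (I ⊔ Ideal.span {c}) (X ⧸ LinearMap.range ν) := by
    refine Kil.sup (kX.quot _) (Kil.span ?_)
    rintro a rfl m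
    obtain ⟨m, rfl⟩ := Submodule.mkQ_surjective _ m
    rw [← map_smul]
    exact (Submodule.Quotient.mk_eq_zero _).2 (hcX m)
  have hfW : ∀ x : X, algebraMap A (MonoidAlgebra A Γ) c • f (χ x).1 = 0 := by
    intro x
    obtain ⟨v, hv⟩ := hcX x
    have h1 := hfν v
    rw [hv, map_smul] at h1
    rw [← map_smul]
    exact h1
  let g₀ : X →ₗ[MonoidAlgebra A Γ] tor (Γ := Γ) c G := LinearMap.codRestrict _
    (f ∘ₗ LinearMap.fst _ _ _ ∘ₗ χ) hfW
  let g : (X ⧸ LinearMap.range ν) →ₗ[MonoidAlgebra A Γ] tor (Γ := Γ) c G :=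
    (LinearMap.range ν).liftQ g₀ (by
      rintro _ ⟨v, rfl⟩
      exact Subtype.ext (hfν v))
  have hg : ∀ w, (g ((LinearMap.range ν).mkQ w)).1 = f (χ w).1 := fun w => rfl
  have kGc : Kil (Γ := Γ) (I ⊔ Ideal.span {c}) (tor (Γ := Γ) c G) := by
    refine Kil.sup (kG.sub _) (Kil.span ?_)
    rintro a rfl m
    exact Subtype.ext m.2
  choose σ hσ using fun y : s => hsX y.1 y.2
  obtain ⟨P', _, _, hP', kP', V₃, hV₃, hsV₃, hgV₃⟩ := hI _ _ g hX₂ hGc kX₂ kGc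
    (Set.range fun y : s => (LinearMap.range ν).mkQ (σ y)) (Set.finite_range _) (by
      rintro _ ⟨y, rfl⟩
      apply Subtype.ext
      rw [hg, hσ]
      exact hsf y.1 y.2)
  -- the preimage
  let θ : (X × P') →ₗ[MonoidAlgebra A Γ] (X ⧸ LinearMap.range ν) × P' :=
    (LinearMap.range ν).mkQ.prodMap LinearMap.id
  have hV₄ : Perf (MonoidAlgebra A Γ) (V₃.comap θ) := by
    refine perf_comap θ (perf_ker_prodMap _ _ ?_ perf_ker_id) V₃ ?_ hV₃
    · rw [Submodule.ker_mkQ]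
      exact hN
    · rintro ⟨x, z⟩ _
      obtain ⟨x, rfl⟩ := Submodule.mkQ_surjective _ x
      exact ⟨(x, z), rfl⟩
  let η : (X × P') →ₗ[MonoidAlgebra A Γ] E × (Q × P') :=
    (LinearMap.fst _ _ _ ∘ₗ χ ∘ₗ LinearMap.fst _ _ _).prod
      ((LinearMap.snd _ _ _ ∘ₗ χ ∘ₗ LinearMap.fst _ _ _).prod (LinearMap.snd _ _ _))
  have hη : ∀ w, η w = ((χ w.1).1, ((χ w.1).2, w.2)) := fun w => rfl
  have hηi : Function.Injective η := by
    rintro ⟨x, p⟩ ⟨x', p'⟩ h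
    rw [hη, hη] at h
    have e0 : (χ x).1 = (χ x').1 := congrArg (fun t => t.1) h
    have e1 : (χ x).2 = (χ x').2 := congrArg (fun t => t.2.1) h
    have e2 : p = p' := congrArg (fun t => t.2.2) h
    rw [hχ (Prod.ext e0 e1), e2]
  refine ⟨Q × P', inferInstance, inferInstance, hQ.prod hP',
    kQ.prod (kP'.mono le_sup_left), (V₃.comap θ).map η, perf_map_inj η hηi _ hV₄, ?_, ?_⟩
  · intro y hy
    refine ⟨(σ ⟨y, hy⟩, 0), hsV₃ _ ⟨⟨y, hy⟩, rfl⟩, ?_⟩
    rw [hη, hσ]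
    rfl
  · rintro _ ⟨w, hw, rfl⟩
    exact congrArg Subtype.val (hgV₃ _ hw)

/-- Step A. From a perfect submodule which contains the multiples by `c` to a perfect submodule
which contains the elements. -/
theorem stepA (I : Ideal A) (c : A) (hI : LPI Γ (I ⊔ Ideal.span {c}))
    {E G Q : Type u} [AddCommGroup E] [Module (MonoidAlgebra A Γ) E]
    [AddCommGroup G] [Module (MonoidAlgebra A Γ) G]
    [AddCommGroup Q] [Module (MonoidAlgebra A Γ) Q]
    (hE : Perf (MonoidAlgebra A Γ) E) (hQ : Perf (MonoidAlgebra A Γ) Q)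
    (hEc : Perf (MonoidAlgebra A Γ) (tor (Γ := Γ) c E))
    (hGc : Perf (MonoidAlgebra A Γ) (tor (Γ := Γ) c G))
    (kE : Kil (Γ := Γ) I E) (kG : Kil (Γ := Γ) I G) (kQ : Kil (Γ := Γ) I Q)
    (hQc : ∀ z : Q, algebraMap A (MonoidAlgebra A Γ) c • z = 0 → z = 0)
    (f : E →ₗ[MonoidAlgebra A Γ] G) (V : Submodule (MonoidAlgebra A Γ) (E × Q))
    (hV : Perf (MonoidAlgebra A Γ) V)
    (hVc : ∀ v ∈ V, algebraMap A (MonoidAlgebra A Γ) c • v = 0 → v = 0)
    (hfV : ∀ v ∈ V, f v.1 = 0) (s : Set E) (hs : s.Finite) (hsf : ∀ y ∈ s, f y = 0)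
    (hsV : ∀ y ∈ s, (algebraMap A (MonoidAlgebra A Γ) c • y, (0 : Q)) ∈ V) :
    HasV I f s := by
  classical
  have := hs.to_subtype
  -- multiplication by `c`
  let μV : V →ₗ[MonoidAlgebra A Γ] V := cmul c V
  have hμV : Function.Injective μV := by
    rw [injective_iff_map_eq_zero]
    intro v hv
    exact Subtype.ext (hVc v.1 v.2 (congrArg Subtype.val hv))
  let μE : (E × Q) →ₗ[MonoidAlgebra A Γ] (E × Q) := cmul c (E × Q)
  have hμE : ∀ e, μE e = algebraMap A (MonoidAlgebra A Γ) c • e := fun e => rfl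
  have hEQ : Perf (MonoidAlgebra A Γ) (E × Q) := hE.prod hQ
  have hkμ : ∀ e : E × Q, μE e = 0 ↔ e.1 ∈ tor (Γ := Γ) c E ∧ e.2 = 0 := by
    intro e
    constructor
    · intro h
      exact ⟨congrArg Prod.fst h, hQc _ (congrArg Prod.snd h)⟩
    · rintro ⟨h1, h2⟩
      refine Prod.ext h1 ?_
      change algebraMap A (MonoidAlgebra A Γ) c • e.2 = 0
      rw [h2, smul_zero]
  have hkμp : Perf (MonoidAlgebra A Γ) (LinearMap.ker μE) := by
    refine hEc.congr (LinearEquiv.ofBijective (LinearMap.codRestrict _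
      (LinearMap.inl _ E Q ∘ₗ (tor (Γ := Γ) c E).subtype) fun x => ?_) ⟨?_, ?_⟩)
    · exact (hkμ _).2 ⟨x.2, rfl⟩
    · intro x y h
      have h1 : ((x : E), (0 : Q)) = ((y : E), (0 : Q)) := congrArg Subtype.val h
      exact Subtype.ext (congrArg Prod.fst h1)
    · rintro ⟨e, he⟩
      obtain ⟨h1, h2⟩ := (hkμ e).1 he
      exact ⟨⟨e.1, h1⟩, Subtype.ext (Prod.ext rfl h2.symm)⟩
  have hVq : Perf (MonoidAlgebra A Γ) (V ⧸ LinearMap.range μV) :=
    Perf.quot _ (perf_range μV hμV hV) hV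
  have hEq : Perf (MonoidAlgebra A Γ) ((E × Q) ⧸ LinearMap.range μE) :=
    Perf.quot _ (perf_range' μE hkμp hEQ) hEQ
  -- the modules are killed by `I + (c)`
  have kEQ : Kil (Γ := Γ) I (E × Q) := kE.prod kQ
  have kVq : Kil (Γ := Γ) (I ⊔ Ideal.span {c}) (V ⧸ LinearMap.range μV) := by
    refine Kil.sup ((kEQ.sub V).quot _) (Kil.span ?_)
    rintro a rfl m
    obtain ⟨m, rfl⟩ := Submodule.mkQ_surjective _ m
    rw [← map_smul]
    exact (Submodule.Quotient.mk_eq_zero _).2 ⟨m, rfl⟩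
  have kEq : Kil (Γ := Γ) (I ⊔ Ideal.span {c}) ((E × Q) ⧸ LinearMap.range μE) := by
    refine Kil.sup (kEQ.quot _) (Kil.span ?_)
    rintro a rfl m
    obtain ⟨m, rfl⟩ := Submodule.mkQ_surjective _ m
    rw [← map_smul]
    exact (Submodule.Quotient.mk_eq_zero _).2 ⟨m, rfl⟩
  let ψ : (V ⧸ LinearMap.range μV) →ₗ[MonoidAlgebra A Γ] ((E × Q) ⧸ LinearMap.range μE) :=
    Submodule.mapQ _ _ V.subtype (by
      rintro _ ⟨v, rfl⟩
      exact ⟨v.1, rfl⟩)
  have hψ : ∀ v, ψ ((LinearMap.range μV).mkQ v) = (LinearMap.range μE).mkQ v.1 := fun v => rfl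
  obtain ⟨P, _, _, hP, kP, U, hU, hsU, hψU⟩ := hI _ _ ψ hVq hEq kVq kEq
    (Set.range fun y : s => (LinearMap.range μV).mkQ ⟨_, hsV y.1 y.2⟩) (Set.finite_range _) (by
      rintro _ ⟨y, rfl⟩
      rw [hψ]
      refine (Submodule.Quotient.mk_eq_zero _).2 ⟨(y.1, 0), ?_⟩
      rw [hμE]
      exact Prod.ext rfl (smul_zero _))
  -- the module `W` of the elements whose multiples are in `V`
  let W : Submodule (MonoidAlgebra A Γ) (E × Q) := V.comap μE
  let δ : W →ₗ[MonoidAlgebra A Γ] (V ⧸ LinearMap.range μV) :=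
    (LinearMap.range μV).mkQ ∘ₗ μE.restrict fun x hx => hx
  have hδ : ∀ e : W, δ e = (LinearMap.range μV).mkQ ⟨μE e.1, e.2⟩ := fun e => rfl
  have hVW : V ≤ W := fun v hv => V.smul_mem _ hv
  have hδV : ∀ (v : E × Q) (hv : v ∈ V), δ ⟨v, hVW hv⟩ = 0 := fun v hv =>
    (Submodule.Quotient.mk_eq_zero _).2 ⟨⟨v, hv⟩, rfl⟩
  have hδk : Perf (MonoidAlgebra A Γ) (LinearMap.ker δ) := by
    let j : (V × LinearMap.ker μE) →ₗ[MonoidAlgebra A Γ] W :=
      LinearMap.codRestrict W (V.subtype ∘ₗ LinearMap.fst _ _ _ +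
        (LinearMap.ker μE).subtype ∘ₗ LinearMap.snd _ _ _) fun x => by
          refine W.add_mem (hVW x.1.2) ?_
          change μE x.2.1 ∈ V
          rw [LinearMap.mem_ker.1 x.2.2]
          exact V.zero_mem
    have hj : ∀ x, (j x).1 = x.1.1 + x.2.1 := fun x => rfl
    have hμj : ∀ x, μE (j x).1 = (μV x.1).1 := by
      intro x
      rw [hj, map_add, LinearMap.mem_ker.1 x.2.2, add_zero]
      rfl
    refine (hV.prod hkμp).congr (LinearEquiv.ofBijective (LinearMap.codRestrict _ j fun x => ?_)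
      ⟨?_, ?_⟩)
    · rw [LinearMap.mem_ker, hδ]
      exact (Submodule.Quotient.mk_eq_zero _).2 ⟨x.1, Subtype.ext (hμj x).symm⟩
    · rw [injective_iff_map_eq_zero]
      intro x hx
      have h1 : (j x).1 = 0 := congrArg (fun z => (z.1 : W).1) hx
      have h2 := hμj x
      rw [h1, map_zero] at h2
      have h3 : x.1 = 0 := hμV (by
        rw [map_zero]
        exact Subtype.ext h2.symm)
      rw [hj, h3] at h1
      refine Prod.ext h3 (Subtype.ext ?_)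
      change (0 : E × Q) + x.2.1 = 0 at h1
      rwa [zero_add] at h1
    · rintro ⟨e, he⟩
      rw [LinearMap.mem_ker, hδ] at he
      obtain ⟨v, hv⟩ := (Submodule.Quotient.mk_eq_zero _).1 he
      have hv' : μE v.1 = μE e.1 := congrArg Subtype.val hv
      refine ⟨(v, ⟨e.1 - v.1, ?_⟩), Subtype.ext (Subtype.ext ?_)⟩
      · rw [LinearMap.mem_ker, map_sub, hv', sub_self]
      · change v.1 + (e.1 - v.1) = e.1
        abel
  -- the module `X₂`
  let δP : (W × P) →ₗ[MonoidAlgebra A Γ] (V ⧸ LinearMap.range μV) × P :=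
    δ.prodMap LinearMap.id
  let X : Submodule (MonoidAlgebra A Γ) (W × P) := U.comap δP
  have hX : ∀ w, w ∈ X ↔ (δ w.1, w.2) ∈ U := fun w => Iff.rfl
  have hXp : Perf (MonoidAlgebra A Γ) X := by
    refine perf_comap δP (perf_ker_prodMap _ _ hδk perf_ker_id) U ?_ hU
    rintro ⟨t, z⟩ htz
    have h1 := hψU _ htz
    obtain ⟨v, rfl⟩ := Submodule.mkQ_surjective _ t
    change ψ ((LinearMap.range μV).mkQ v) = 0 at h1
    rw [hψ] at h1
    obtain ⟨e, he⟩ := (Submodule.Quotient.mk_eq_zero _).1 h1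
    have heW : e ∈ W := by
      change μE e ∈ V
      rw [he]
      exact v.2
    refine ⟨(⟨e, heW⟩, z), Prod.ext ?_ rfl⟩
    change δ ⟨e, heW⟩ = _
    rw [hδ]
    congr 1
    exact Subtype.ext he
  let ν : V →ₗ[MonoidAlgebra A Γ] X := LinearMap.codRestrict X
    (LinearMap.inl _ W P ∘ₗ Submodule.inclusion hVW) fun v => by
      rw [hX]
      change (δ ⟨v.1, hVW v.2⟩, (0 : P)) ∈ U
      rw [hδV v.1 v.2]
      exact U.zero_mem
  have hν : Function.Injective ν := by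
    rw [injective_iff_map_eq_zero]
    intro v hv
    have h1 : (((ν v).1).1 : W).1 = 0 := by rw [hv]; rfl
    exact Subtype.ext h1
  have hsW : ∀ y : s, ((y.1, 0) : E × Q) ∈ W := by
    intro y
    change μE (y.1, 0) ∈ V
    have h1 : μE (y.1, 0) = (algebraMap A (MonoidAlgebra A Γ) c • y.1, (0 : Q)) :=
      Prod.ext rfl (smul_zero _)
    rw [h1]
    exact hsV y.1 y.2
  have hsX : ∀ y : s, ((⟨(y.1, 0), hsW y⟩, 0) : W × P) ∈ X := by
    intro y
    rw [hX]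
    have h1 := hsU _ ⟨y, rfl⟩
    change (δ ⟨(y.1, 0), hsW y⟩, (0 : P)) ∈ U
    rw [hδ]
    have h2 : (⟨μE (y.1, 0), hsW y⟩ : V) = ⟨_, hsV y.1 y.2⟩ :=
      Subtype.ext (Prod.ext rfl (smul_zero _))
    rw [h2]
    exact h1
  let χ : X →ₗ[MonoidAlgebra A Γ] E × (Q × P) :=
    (LinearMap.fst _ _ _ ∘ₗ W.subtype ∘ₗ LinearMap.fst _ _ _ ∘ₗ X.subtype).prod
      ((LinearMap.snd _ _ _ ∘ₗ W.subtype ∘ₗ LinearMap.fst _ _ _ ∘ₗ X.subtype).prod
        (LinearMap.snd _ _ _ ∘ₗ X.subtype))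
  have hχ : ∀ w, χ w = (w.1.1.1.1, (w.1.1.1.2, w.1.2)) := fun w => rfl
  have hχi : Function.Injective χ := by
    rintro ⟨⟨⟨⟨a, b⟩, h1⟩, z⟩, h2⟩ ⟨⟨⟨⟨a', b'⟩, h1'⟩, z'⟩, h2'⟩ h
    rw [hχ, hχ] at h
    have e1 : a = a' := congrArg Prod.fst h
    have e2 : b = b' := congrArg (fun t => t.2.1) h
    have e3 : z = z' := congrArg (fun t => t.2.2) h
    subst e1 e2 e3
    rfl
  have kP' : Kil (Γ := Γ) I P := kP.mono le_sup_left
  refine stepA_aux I c hI (hQ.prod hP) hV hXp hGc (((kEQ.sub W).prod kP').sub X) kG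
    (kQ.prod kP') ν hν (fun m => ⟨⟨_, m.1.1.2⟩, Subtype.ext (Prod.ext ?_ ?_)⟩) χ hχi f
    (fun v => hfV v.1 v.2) s hs hsf fun y hy => ⟨⟨_, hsX ⟨y, hy⟩⟩, rfl⟩
  · exact Subtype.ext rfl
  · change (0 : P) = algebraMap A (MonoidAlgebra A Γ) c • m.1.2
    exact (kP c ((le_sup_right : Ideal.span {c} ≤ I ⊔ Ideal.span {c})
      (Ideal.mem_span_singleton_self c)) _).symm

end

end Pool.Agent.Lib.MP_551055_al.T6
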