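import Mathlib
import Pool.Agent.Lib.MP_551055_al.Trim.LD.NG
import Pool.Agent.Lib.MP_551055_al.Trim.T4.Alg
import Pool.Agent.Lib.MP_551055_al.Trim.T4.Csub
import Pool.Agent.Lib.MP_551055_al.Trim.T4.Gen
import Pool.Agent.Lib.MP_551055_al.Trim.T4.Perf
import Pool.Agent.Lib.MP_551055_al.Trim.T6.Basic
import Pool.Agent.Lib.MP_551055_al.Trim.T6.GenF
import Pool.Agent.Lib.MP_551055_al.Trim.T6.StepA

/-!
# Perfect submodules at a minimal prime ideal
-/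

set_option autoImplicit false

namespace Pool.Agent.Lib.MP_551055_al
end Pool.Agent.Lib.MP_551055_al

namespace Pool.Agent.Lib.MP_551055_al.LS
end Pool.Agent.Lib.MP_551055_al.LS

namespace Pool.Agent.Lib.MP_551055_al.T4
end Pool.Agent.Lib.MP_551055_al.T4

namespace Pool.Agent.Lib.MP_551055_al.T6

open Pool.Agent.Lib.MP_551055_al

open Pool.Agent.Lib.MP_551055_al.LS

open Pool.Agent.Lib.MP_551055_al.T4

universe u

section

variable {A : Type u} [CommRing A] {Γ : Type u} [Group Γ]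

/-- No torsion outside of `q`. -/
def TF (q : Ideal A) (M : Type u) [AddCommGroup M] [Module (MonoidAlgebra A Γ) M] : Prop :=
  ∀ d, d ∉ q → ∀ z : M, algebraMap A (MonoidAlgebra A Γ) d • z = 0 → z = 0

variable {q : Ideal A} {M M' : Type u} [AddCommGroup M] [Module (MonoidAlgebra A Γ) M]
  [AddCommGroup M'] [Module (MonoidAlgebra A Γ) M']

theorem TF.prod (h : TF (Γ := Γ) q M) (h' : TF (Γ := Γ) q M') : TF (Γ := Γ) q (M × M') :=
  fun d hd z hz => Prod.ext (h d hd z.1 (congrArg Prod.fst hz)) (h' d hd z.2 (congrArg Prod.snd hz))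

theorem tf_EI {J : Ideal A} {ι : Type} (hsat : ∀ c a : A, c ∉ q → c * a ∈ J → a ∈ J) :
    TF (Γ := Γ) q (EI Γ ι J) := by
  intro d hd z hz
  obtain ⟨v, rfl⟩ := Submodule.mkQ_surjective _ z
  rw [← map_smul] at hz
  have h1 := (Submodule.Quotient.mk_eq_zero _).1 hz
  refine (Submodule.Quotient.mk_eq_zero _).2 fun i g => hsat d _ hd ?_
  have h2 := h1 i g
  rwa [Pi.smul_apply, smul_eq_mul, coeff_algebraMap_mul] at h2

theorem Kil.pi {l : ℕ} (h : Kil (Γ := Γ) q M) : Kil (Γ := Γ) q (Fin l → M) := fun a ha m =>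
  funext fun k => h a ha (m k)

/-- Factorisation through a surjection. -/
theorem exists_factor {S : Type u} [Ring S] {B C D : Type u} [AddCommGroup B] [Module S B]
    [AddCommGroup C] [Module S C] [AddCommGroup D] [Module S D] (π : B →ₗ[S] C)
    (hπ : Function.Surjective π) (h : B →ₗ[S] D) (hk : ∀ x, π x = 0 → h x = 0) :
    ∃ F : C →ₗ[S] D, ∀ x, F (π x) = h x := by
  let e := π.quotKerEquivOfSurjective hπ
  refine ⟨(LinearMap.ker π).liftQ h hk ∘ₗ e.symm.toLinearMap, fun x => ?_⟩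
  have h1 : e.symm (π x) = (LinearMap.ker π).mkQ x := by
    rw [LinearEquiv.symm_apply_eq]
    rfl
  change (LinearMap.ker π).liftQ h hk (e.symm (π x)) = h x
  rw [h1]
  rfl

variable (hA : ∀ (N : Type u) [AddCommGroup N] [Module A N], Module.Finite A N → Perf A N)

include hA in
/-- The second half of step B. -/
theorem stepB_aux (J a : Ideal A) (hJa : J ≤ a) (hI : LPI Γ a)
    {E G Q V X : Type u} [AddCommGroup E] [Module (MonoidAlgebra A Γ) E]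
    [AddCommGroup G] [Module (MonoidAlgebra A Γ) G]
    [AddCommGroup Q] [Module (MonoidAlgebra A Γ) Q]
    [AddCommGroup V] [Module (MonoidAlgebra A Γ) V]
    [AddCommGroup X] [Module (MonoidAlgebra A Γ) X]
    (hV : Perf (MonoidAlgebra A Γ) V) (hX : Perf (MonoidAlgebra A Γ) X)
    (hGc : Perf (MonoidAlgebra A Γ) (qker (Γ := Γ) a G))
    (ν : V →ₗ[MonoidAlgebra A Γ] X) (hν : Function.Injective ν)
    (kX₂ : Kil (Γ := Γ) a (X ⧸ LinearMap.range ν))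
    (χ : X →ₗ[MonoidAlgebra A Γ] E × Q) (hχ : Function.Injective χ)
    (f : E →ₗ[MonoidAlgebra A Γ] G) (hfν : ∀ v, f (χ (ν v)).1 = 0)
    (s : Set E) (hs : s.Finite) (hsf : ∀ y ∈ s, f y = 0)
    (hsX : ∀ y ∈ s, ∃ x : X, χ x = (y, 0)) :
    ∃ (p : ℕ) (V' : Submodule (MonoidAlgebra A Γ) (E × (Q × EI Γ (Fin p) J))),
      Perf (MonoidAlgebra A Γ) V' ∧ (∀ y ∈ s, (y, (0 : Q × EI Γ (Fin p) J)) ∈ V') ∧
      ∀ v ∈ V', f v.1 = 0 := by
  classical
  have := hs.to_subtype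
  have hN : Perf (MonoidAlgebra A Γ) (LinearMap.range ν) := perf_range ν hν hV
  have hX₂ : Perf (MonoidAlgebra A Γ) (X ⧸ LinearMap.range ν) := Perf.quot _ hN hX
  have hfW : ∀ x : X, f (χ x).1 ∈ qker (Γ := Γ) a G := by
    intro x b hb
    have h2 := kX₂ b hb ((LinearMap.range ν).mkQ x)
    rw [← map_smul] at h2
    obtain ⟨v, hv⟩ := (Submodule.Quotient.mk_eq_zero _).1 h2
    have h1 := hfν v
    rw [hv, map_smul] at h1
    rw [← map_smul]
    exact h1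
  let g₀ : X →ₗ[MonoidAlgebra A Γ] qker (Γ := Γ) a G := LinearMap.codRestrict _
    (f ∘ₗ LinearMap.fst _ _ _ ∘ₗ χ) hfW
  let g : (X ⧸ LinearMap.range ν) →ₗ[MonoidAlgebra A Γ] qker (Γ := Γ) a G :=
    (LinearMap.range ν).liftQ g₀ (by
      rintro _ ⟨v, rfl⟩
      exact Subtype.ext (hfν v))
  have hg : ∀ w, (g ((LinearMap.range ν).mkQ w)).1 = f (χ w).1 := fun w => rfl
  have kGc : Kil (Γ := Γ) a (qker (Γ := Γ) a G) := fun b hb m => Subtype.ext (m.2 b hb)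
  choose σ hσ using fun y : s => hsX y.1 y.2
  obtain ⟨P, _, _, hP, kP, V₃, hV₃, hsV₃, hgV₃⟩ := hI _ _ g hX₂ hGc kX₂ kGc
    (Set.range fun y : s => (LinearMap.range ν).mkQ (σ y)) (Set.finite_range _) (by
      rintro _ ⟨y, rfl⟩
      apply Subtype.ext
      rw [hg, hσ]
      exact hsf y.1 y.2)
  -- the lift of `P`
  have : Module.Finite (MonoidAlgebra A Γ) P := hP.finite
  obtain ⟨p, τ, hτ⟩ := exists_EI_surj (kP.mono hJa)
  have hkτ : Perf (MonoidAlgebra A Γ) (LinearMap.ker τ) := Perf.ker τ hτ (perf_EI hA) hP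
  let θ : (X × EI Γ (Fin p) J) →ₗ[MonoidAlgebra A Γ] (X ⧸ LinearMap.range ν) × P :=
    (LinearMap.range ν).mkQ.prodMap τ
  have hV₄ : Perf (MonoidAlgebra A Γ) (V₃.comap θ) := by
    refine perf_comap θ (perf_ker_prodMap _ _ ?_ hkτ) V₃ ?_ hV₃
    · rw [Submodule.ker_mkQ]
      exact hN
    · rintro ⟨x, z⟩ _
      obtain ⟨x, rfl⟩ := Submodule.mkQ_surjective _ x
      obtain ⟨z, rfl⟩ := hτ z
      exact ⟨(x, z), rfl⟩
  let η : (X × EI Γ (Fin p) J) →ₗ[MonoidAlgebra A Γ] E × (Q × EI Γ (Fin p) J) :=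
    (LinearMap.fst _ _ _ ∘ₗ χ ∘ₗ LinearMap.fst _ _ _).prod
      ((LinearMap.snd _ _ _ ∘ₗ χ ∘ₗ LinearMap.fst _ _ _).prod (LinearMap.snd _ _ _))
  have hη : ∀ w, η w = ((χ w.1).1, ((χ w.1).2, w.2)) := fun w => rfl
  have hηi : Function.Injective η := by
    rintro ⟨x, p⟩ ⟨x', p'⟩ h
    rw [hη, hη] at h
    have e0 : (χ x).1 = (χ x').1 := congrArg (fun t => t.1) h
    have e1 : (χ x).2 = (χ x').2 := congrArg (fun t => t.2.1) h
    have e2 : p = p' := congrArg (fun t => t.2.2) h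
    rw [hχ (Prod.ext e0 e1), e2]
  refine ⟨p, (V₃.comap θ).map η, perf_map_inj η hηi _ hV₄, ?_, ?_⟩
  · intro y hy
    refine ⟨(σ ⟨y, hy⟩, 0), ?_, ?_⟩
    · change ((LinearMap.range ν).mkQ (σ ⟨y, hy⟩), τ 0) ∈ V₃
      rw [map_zero]
      exact hsV₃ _ ⟨⟨y, hy⟩, rfl⟩
    · rw [hη, hσ]
      rfl
  · rintro _ ⟨w, hw, rfl⟩
    exact congrArg Subtype.val (hgV₃ _ hw)

include hA in
/-- Step B. Perfect submodules at a minimal prime ideal. -/
theorem stepB [IsNoetherianRing A] (q : Ideal A) [q.IsPrime] (hD : TWO.{u, u} Γ) (J : Ideal A)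
    (hJq : J ≤ q) (hsat : ∀ c a : A, c ∉ q → c * a ∈ J → a ∈ J) (t : ℕ) (ht : q ^ t ≤ J)
    (hLP : ∀ a : Ideal A, J < a → LPI Γ a) {ι κ : Type} [Fintype ι] [Fintype κ]
    (f : EI Γ ι J →ₗ[MonoidAlgebra A Γ] EI Γ κ J) (s : Set (EI Γ ι J)) (hs : s.Finite)
    (hsf : ∀ y ∈ s, f y = 0) :
    ∃ (c : A) (Q : Type u) (_ : AddCommGroup Q) (_ : Module (MonoidAlgebra A Γ) Q),
      c ∉ q ∧ Perf (MonoidAlgebra A Γ) Q ∧ Kil (Γ := Γ) J Q ∧ TF (Γ := Γ) q Q ∧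
      ∃ V : Submodule (MonoidAlgebra A Γ) (EI Γ ι J × Q), Perf (MonoidAlgebra A Γ) V ∧
        (∀ y ∈ s, (algebraMap A (MonoidAlgebra A Γ) c • y, (0 : Q)) ∈ V) ∧
        ∀ v ∈ V, f v.1 = 0 := by
  classical
  have := hs.to_subtype
  -- the order
  have hex : ∃ e, q ^ e ≤ J := ⟨t, ht⟩
  obtain ⟨r, hr1, hr2⟩ : ∃ r, q ^ (r + 1) ≤ J ∧ ¬ q ^ r ≤ J := by
    have h1 := Nat.find_spec hex
    have h2 : Nat.find hex ≠ 0 := by
      intro h0
      rw [h0, pow_zero, Ideal.one_eq_top] at h1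
      exact (Ideal.IsPrime.ne_top (I := q) inferInstance) (top_le_iff.1 (h1.trans hJq))
    obtain ⟨r, hr⟩ := Nat.exists_eq_succ_of_ne_zero h2
    refine ⟨r, ?_, Nat.find_min hex (by omega)⟩
    rw [hr] at h1
    exact h1
  obtain ⟨l, b, hb⟩ := Submodule.fg_iff_exists_fin_generating_family.1
    (Ideal.fg_of_isNoetherianRing (q ^ r))
  have hbk : ∀ k, b k ∈ q ^ r := fun k => by
    rw [← hb]
    exact Submodule.subset_span ⟨k, rfl⟩
  have hbq : ∀ (a : A), a ∈ q → ∀ k (x : EI Γ ι J), algebraMap A (MonoidAlgebra A Γ) a •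
      algebraMap A (MonoidAlgebra A Γ) (b k) • x = 0 := by
    intro a ha k x
    have h1 : b k * a ∈ q ^ (r + 1) := by
      rw [pow_succ]
      exact Ideal.mul_mem_mul (hbk k) ha
    rw [smul_smul, ← map_mul, mul_comm a]
    exact kil_EI _ (hr1 h1) x
  -- the socle
  let u₁ : qker (Γ := Γ) q (EI Γ ι J) →ₗ[MonoidAlgebra A Γ] qker (Γ := Γ) q (EI Γ κ J) :=
    f.restrict fun x hx a ha => by rw [← map_smul, hx a ha, map_zero]
  have hu₁ : ∀ x, (u₁ x).1 = f x.1 := fun x => rfl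
  have kq : ∀ (N : Type u) [AddCommGroup N] [Module (MonoidAlgebra A Γ) N],
      Kil (Γ := Γ) q (qker (Γ := Γ) q N) := fun N _ _ a ha m => Subtype.ext (m.2 a ha)
  have hG₁ : GenLFq q Γ (LinearMap.ker u₁) :=
    genLFq_ker hD (genF_qker ι J) (genF_qker κ J) (kq _) u₁
  let e₁ : Fin l × s → LinearMap.ker u₁ := fun p =>
    ⟨⟨algebraMap A (MonoidAlgebra A Γ) (b p.1) • p.2.1, fun a ha => hbq a ha p.1 _⟩, by
      rw [LinearMap.mem_ker]
      apply Subtype.ext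
      rw [hu₁]
      change f (algebraMap A (MonoidAlgebra A Γ) (b p.1) • p.2.1) = 0
      rw [map_smul, hsf _ p.2.2, smul_zero]⟩
  obtain ⟨c₀, n, m, j₀, hc₀, hj₀, hj₀s⟩ := genLFq_inj hG₁ (Set.range e₁) (Set.finite_range _)
  -- facts about the map
  have hj₀q : ∀ v, ((j₀ v).1.1 : EI Γ ι J) ∈ qker (Γ := Γ) q (EI Γ ι J) := fun v => (j₀ v).1.1.2
  have hj₀f : ∀ v, f ((j₀ v).1.1 : EI Γ ι J) = 0 := fun v =>
    congrArg Subtype.val (LinearMap.mem_ker.1 (j₀ v).1.2)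
  let J₀ : EI Γ (Fin n) q →ₗ[MonoidAlgebra A Γ] EI Γ ι J × EI Γ (Fin m) q :=
    (((qker (Γ := Γ) q (EI Γ ι J)).subtype ∘ₗ (LinearMap.ker u₁).subtype).prodMap
      LinearMap.id) ∘ₗ j₀
  have hJ₀ : ∀ v, J₀ v = (((j₀ v).1.1 : EI Γ ι J), (j₀ v).2) := fun v => rfl
  have hJ₀i : Function.Injective J₀ := by
    intro v w h
    rw [hJ₀, hJ₀] at h
    apply hj₀
    have h1 : ((j₀ v).1.1 : EI Γ ι J) = ((j₀ w).1.1 : EI Γ ι J) := congrArg (fun t => t.1) h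
    have h2 : (j₀ v).2 = (j₀ w).2 := congrArg (fun t => t.2) h
    exact Prod.ext (Subtype.ext (Subtype.ext h1)) h2
  have hJ₀s : ∀ k (y : s), ∃ v, j₀ v = (algebraMap A (MonoidAlgebra A Γ) c₀ • e₁ (k, y), 0) :=
    fun k y => hj₀s _ ⟨(k, y), rfl⟩
  have hTFq : ∀ ν : Type, TF (Γ := Γ) q (EI Γ ν q) := fun ν => tf_EI fun c a hc h =>
    (Ideal.IsPrime.mem_or_mem inferInstance h).resolve_left hc
  rcases Nat.eq_zero_or_pos r with hr0 | hr0
  · -- the reduced case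
    subst hr0
    have h1 : ∀ (y : s), ∀ a ∈ Ideal.span (Set.range b),
        (algebraMap A (MonoidAlgebra A Γ) c₀ • algebraMap A (MonoidAlgebra A Γ) a • y.1,
          (0 : EI Γ (Fin m) q)) ∈ LinearMap.range J₀ := by
      intro y a ha
      induction ha using Submodule.span_induction with
      | mem x hx =>
        obtain ⟨k, rfl⟩ := hx
        obtain ⟨v, hv⟩ := hJ₀s k y
        refine ⟨v, ?_⟩
        rw [hJ₀, hv]
        rfl
      | zero =>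
        rw [map_zero, zero_smul, smul_zero]
        exact Submodule.zero_mem _
      | add x x' _ _ hx hx' =>
        rw [map_add, add_smul, smul_add]
        have h2 := Submodule.add_mem _ hx hx'
        rwa [Prod.mk_add_mk, add_zero] at h2
      | smul d x _ hx =>
        rw [smul_eq_mul, map_mul, mul_smul, alg_comm]
        have h2 := Submodule.smul_mem _ (algebraMap A (MonoidAlgebra A Γ) d) hx
        rwa [Prod.smul_mk, smul_zero] at h2
    have hb' : Ideal.span (Set.range b) = q ^ 0 := hb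
    refine ⟨c₀, EI Γ (Fin m) q, inferInstance, inferInstance, hc₀, perf_EI hA,
      kil_EI.mono hJq, hTFq _, LinearMap.range J₀, perf_range J₀ hJ₀i (perf_EI hA), ?_, ?_⟩
    · intro y hy
      have h2 := h1 ⟨y, hy⟩ 1 (by
        rw [hb', pow_zero, Ideal.one_eq_top]
        exact Submodule.mem_top)
      rwa [map_one, one_smul] at h2
    · rintro _ ⟨v, rfl⟩
      exact hj₀f v
  -- the general case
  have hJne : ¬ q ≤ J := fun h => hr2 ((Ideal.pow_le_self (Nat.pos_iff_ne_zero.1 hr0)).trans h)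
  let π := rd hJq Γ ι
  have hπ : Function.Surjective π := rd_surjective hJq
  have hπq : ∀ x ∈ qker (Γ := Γ) q (EI Γ ι J), π x = 0 := by
    intro x hx
    obtain ⟨v, rfl⟩ := Submodule.mkQ_surjective _ x
    refine (rd_eq_zero hJq v).2 fun i g => ?_
    by_contra hne
    refine hJne fun a ha => hsat _ a hne ?_
    have h1 := hx a ha
    rw [← map_smul] at h1
    have h2 := (Submodule.Quotient.mk_eq_zero _).1 h1 i g
    rwa [Pi.smul_apply, smul_eq_mul, coeff_algebraMap_mul, mul_comm] at h2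
  have hπ0 : ∀ x, π x = 0 → ∀ k, algebraMap A (MonoidAlgebra A Γ) (b k) • x = 0 := by
    intro x hx k
    obtain ⟨v, rfl⟩ := Submodule.mkQ_surjective _ x
    have h1 := (rd_eq_zero hJq v).1 hx
    rw [← map_smul]
    refine (Submodule.Quotient.mk_eq_zero _).2 fun i g => ?_
    rw [Pi.smul_apply, smul_eq_mul, coeff_algebraMap_mul]
    refine hr1 ?_
    rw [pow_succ]
    exact Ideal.mul_mem_mul (hbk k) (h1 i g)
  have hβ : ∀ k, ∃ F : EI Γ ι q →ₗ[MonoidAlgebra A Γ] qker (Γ := Γ) q (EI Γ ι J),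
      ∀ x, (F (π x)).1 = algebraMap A (MonoidAlgebra A Γ) (b k) • x := by
    intro k
    obtain ⟨F, hF⟩ := exists_factor π hπ (LinearMap.codRestrict (qker (Γ := Γ) q (EI Γ ι J))
      (cmul (b k) (EI Γ ι J)) fun x a ha => hbq a ha k x) fun x hx => Subtype.ext (hπ0 x hx k)
    exact ⟨F, fun x => by rw [hF]; rfl⟩
  choose β hβ using hβ
  let u₂ : (EI Γ ι q × (Fin l → EI Γ (Fin n) q)) →ₗ[MonoidAlgebra A Γ]
      (Fin l → qker (Γ := Γ) q (EI Γ ι J) × EI Γ (Fin m) q) :=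
    LinearMap.pi fun k => (β k ∘ₗ LinearMap.fst _ _ _).prod 0 -
      ((LinearMap.ker u₁).subtype.prodMap LinearMap.id) ∘ₗ j₀ ∘ₗ LinearMap.proj k ∘ₗ
        LinearMap.snd _ _ _
  have hu₂ : ∀ z k, u₂ z k = (β k z.1, (0 : EI Γ (Fin m) q)) -
      (((j₀ (z.2 k)).1 : qker (Γ := Γ) q (EI Γ ι J)), (j₀ (z.2 k)).2) := fun z k => rfl
  have hG₂ : GenLFq q Γ (LinearMap.ker u₂) :=
    genLFq_ker hD ((genF_EI ι).prod (genF_EI (Fin n)).pi)
      ((genF_qker ι J).prod (genF_EI (Fin m))).pi (kil_EI.prod kil_EI.pi) u₂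
  choose w hw using hJ₀s
  let e₂ : s → LinearMap.ker u₂ := fun y =>
    ⟨(algebraMap A (MonoidAlgebra A Γ) c₀ • π y.1, fun k => w k y), by
      rw [LinearMap.mem_ker]
      funext k
      rw [hu₂, hw, map_smul]
      refine sub_eq_zero.2 (Prod.ext (Subtype.ext ?_) rfl)
      change algebraMap A (MonoidAlgebra A Γ) c₀ • (β k (π y.1)).1 = _
      rw [hβ]
      rfl⟩
  obtain ⟨c₂, n₂, m₂, j₂, hc₂, hj₂, hj₂s⟩ := genLFq_inj hG₂ (Set.range e₂) (Set.finite_range _)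
  have hkey : ∀ (z : LinearMap.ker u₂) k, ((j₀ (z.1.2 k)).1 : qker (Γ := Γ) q (EI Γ ι J)) =
      β k z.1.1 ∧ (j₀ (z.1.2 k)).2 = 0 := by
    intro z k
    have h1 := congrFun (LinearMap.mem_ker.1 z.2) k
    rw [hu₂] at h1
    have h2 := sub_eq_zero.1 h1
    exact ⟨(congrArg (fun t => t.1) h2).symm, (congrArg (fun t => t.2) h2).symm⟩
  let J₂ : EI Γ (Fin n₂) q →ₗ[MonoidAlgebra A Γ] EI Γ ι q × EI Γ (Fin m₂) q :=
    ((LinearMap.fst _ _ _ ∘ₗ (LinearMap.ker u₂).subtype).prodMap LinearMap.id) ∘ₗ j₂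
  have hJ₂ : ∀ v, J₂ v = ((j₂ v).1.1.1, (j₂ v).2) := fun v => rfl
  have hJ₂i : Function.Injective J₂ := by
    rw [injective_iff_map_eq_zero]
    intro v hv
    rw [hJ₂] at hv
    have h1 : (j₂ v).1.1.1 = 0 := congrArg (fun t => t.1) hv
    have h2 : (j₂ v).2 = 0 := congrArg (fun t => t.2) hv
    have h3 : (j₂ v).1.1.2 = 0 := by
      funext k
      apply hj₀
      obtain ⟨h4, h5⟩ := hkey (j₂ v).1 k
      rw [h1, map_zero] at h4
      rw [Pi.zero_apply, map_zero]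
      exact Prod.ext (Subtype.ext h4) h5
    apply hj₂
    rw [map_zero]
    exact Prod.ext (Subtype.ext (Prod.ext h1 h3)) h2
  have hV₂ : Perf (MonoidAlgebra A Γ) (LinearMap.range J₂) := perf_range J₂ hJ₂i (perf_EI hA)
  -- the module of the vectors with reductions in `V₂`
  let ρ : (EI Γ ι J × EI Γ (Fin m₂) q) →ₗ[MonoidAlgebra A Γ] EI Γ ι q × EI Γ (Fin m₂) q :=
    π.prodMap LinearMap.id
  obtain ⟨X, hX⟩ : ∃ X : Submodule (MonoidAlgebra A Γ) (EI Γ ι J × EI Γ (Fin m₂) q),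
      X = (LinearMap.range J₂).comap ρ := ⟨_, rfl⟩
  have hXm : ∀ x, x ∈ X ↔ (π x.1, x.2) ∈ LinearMap.range J₂ := fun x => by
    rw [hX]
    exact Iff.rfl
  have hXp : Perf (MonoidAlgebra A Γ) X := by
    rw [hX]
    refine perf_comap ρ (perf_ker_prodMap _ _ (perf_ker_rd hA hJq) perf_ker_id) _ ?_ hV₂
    rintro ⟨x, z⟩ _
    obtain ⟨x, rfl⟩ := hπ x
    exact ⟨(x, z), rfl⟩
  have hνX : ∀ v, (((j₀ v).1.1 : EI Γ ι J), (0 : EI Γ (Fin m₂) q)) ∈ X := by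
    intro v
    rw [hXm]
    change (π ((j₀ v).1.1 : EI Γ ι J), (0 : EI Γ (Fin m₂) q)) ∈ LinearMap.range J₂
    rw [hπq _ (hj₀q v)]
    exact Submodule.zero_mem _
  let ν : EI Γ (Fin n) q →ₗ[MonoidAlgebra A Γ] X × EI Γ (Fin m) q :=
    (LinearMap.codRestrict X (LinearMap.inl _ _ _ ∘ₗ LinearMap.fst _ _ _ ∘ₗ J₀) hνX).prod
      (LinearMap.snd _ _ _ ∘ₗ J₀)
  have hν : ∀ v, ν v = (⟨_, hνX v⟩, (j₀ v).2) := fun v => rfl
  have hνi : Function.Injective ν := by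
    intro v v' h
    rw [hν, hν] at h
    have h1 : ((j₀ v).1.1 : EI Γ ι J) = ((j₀ v').1.1 : EI Γ ι J) :=
      congrArg (fun t => t.1.1.1) h
    have h2 : (j₀ v).2 = (j₀ v').2 := congrArg (fun t => t.2) h
    apply hj₀
    exact Prod.ext (Subtype.ext (Subtype.ext h1)) h2
  have kX : Kil (Γ := Γ) J (X × EI Γ (Fin m) q) :=
    ((kil_EI.prod (kil_EI.mono hJq)).sub X).prod (kil_EI.mono hJq)
  have kX₂ : Kil (Γ := Γ) (q ^ r ⊔ J) ((X × EI Γ (Fin m) q) ⧸ LinearMap.range ν) := by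
    refine Kil.sup ?_ (kX.quot _)
    have hb' : Ideal.span (Set.range b) = q ^ r := hb
    rw [← hb']
    refine Kil.span ?_
    rintro _ ⟨k, rfl⟩ x
    obtain ⟨⟨x, z⟩, rfl⟩ := Submodule.mkQ_surjective _ x
    rw [← map_smul]
    refine (Submodule.Quotient.mk_eq_zero _).2 ?_
    obtain ⟨v, hv⟩ := (hXm x.1).1 x.2
    obtain ⟨h4, h5⟩ := hkey (j₂ v).1 k
    rw [hJ₂] at hv
    have h6 : (j₂ v).1.1.1 = π x.1.1 := congrArg (fun t => t.1) hv
    have hbkq : b k ∈ q := Ideal.pow_le_self (Nat.pos_iff_ne_zero.1 hr0) (hbk k)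
    refine ⟨(j₂ v).1.1.2 k, ?_⟩
    rw [hν]
    refine Prod.ext (Subtype.ext (Prod.ext ?_ ?_)) ?_
    · change ((j₀ ((j₂ v).1.1.2 k)).1.1 : EI Γ ι J) =
        algebraMap A (MonoidAlgebra A Γ) (b k) • x.1.1
      rw [h4, h6, hβ]
    · exact (kil_EI _ hbkq _).symm
    · change (j₀ ((j₂ v).1.1.2 k)).2 = algebraMap A (MonoidAlgebra A Γ) (b k) • z
      rw [h5, kil_EI _ hbkq]
  let χ : (X × EI Γ (Fin m) q) →ₗ[MonoidAlgebra A Γ]
      EI Γ ι J × (EI Γ (Fin m₂) q × EI Γ (Fin m) q) :=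
    (LinearMap.fst _ _ _ ∘ₗ X.subtype ∘ₗ LinearMap.fst _ _ _).prod
      ((LinearMap.snd _ _ _ ∘ₗ X.subtype ∘ₗ LinearMap.fst _ _ _).prod (LinearMap.snd _ _ _))
  have hχ : ∀ x, χ x = (x.1.1.1, (x.1.1.2, x.2)) := fun x => rfl
  have hχi : Function.Injective χ := by
    rintro ⟨⟨⟨x, z⟩, h1⟩, p⟩ ⟨⟨⟨x', z'⟩, h1'⟩, p'⟩ h
    rw [hχ, hχ] at h
    have e1 : x = x' := congrArg (fun t => t.1) h
    have e2 : z = z' := congrArg (fun t => t.2.1) h
    have e3 : p = p' := congrArg (fun t => t.2.2) h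
    subst e1 e2 e3
    rfl
  have hlt : J < q ^ r ⊔ J := lt_of_le_of_ne le_sup_right fun h => hr2 (by
    rw [h]
    exact le_sup_left)
  obtain ⟨p, V', hV', hsV', hfV'⟩ := stepB_aux hA J (q ^ r ⊔ J) le_sup_right (hLP _ hlt)
    (perf_EI hA) (hXp.prod (perf_EI hA)) (perf_qker hA _) ν hνi kX₂ χ hχi f (fun v => hj₀f v)
    (Set.range fun y : s => algebraMap A (MonoidAlgebra A Γ) c₂ •
      algebraMap A (MonoidAlgebra A Γ) c₀ • y.1) (Set.finite_range _) (by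
      rintro _ ⟨y, rfl⟩
      rw [map_smul, map_smul, hsf _ y.2, smul_zero, smul_zero]) (by
      rintro _ ⟨y, rfl⟩
      obtain ⟨v, hv⟩ := hj₂s _ ⟨y, rfl⟩
      refine ⟨(⟨(algebraMap A (MonoidAlgebra A Γ) c₂ •
        algebraMap A (MonoidAlgebra A Γ) c₀ • y.1, 0), ?_⟩, 0), rfl⟩
      rw [hXm]
      refine ⟨v, ?_⟩
      rw [hJ₂, hv]
      refine Prod.ext ?_ rfl
      change algebraMap A (MonoidAlgebra A Γ) c₂ • algebraMap A (MonoidAlgebra A Γ) c₀ • π y.1 =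
        π (algebraMap A (MonoidAlgebra A Γ) c₂ • algebraMap A (MonoidAlgebra A Γ) c₀ • y.1)
      rw [map_smul, map_smul])
  refine ⟨c₂ * c₀, (EI Γ (Fin m₂) q × EI Γ (Fin m) q) × EI Γ (Fin p) J, inferInstance,
    inferInstance, mul_notMem hc₂ hc₀, ((perf_EI hA).prod (perf_EI hA)).prod (perf_EI hA),
    ((kil_EI.mono hJq).prod (kil_EI.mono hJq)).prod kil_EI,
    ((hTFq _).prod (hTFq _)).prod (tf_EI hsat), V', hV', ?_, hfV'⟩
  intro y hy
  rw [map_mul, mul_smul]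
  exact hsV' _ ⟨⟨y, hy⟩, rfl⟩

end

end Pool.Agent.Lib.MP_551055_al.T6
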