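import Mathlib
import Pool.Agent.Lib.MP_551055_al.Trim.LD.NG
import Pool.Agent.Lib.MP_551055_al.Trim.LS.Stmts
import Pool.Agent.Lib.MP_551055_al.Trim.T4.Alg
import Pool.Agent.Lib.MP_551055_al.Trim.T4.CA
import Pool.Agent.Lib.MP_551055_al.Trim.T4.Csub
import Pool.Agent.Lib.MP_551055_al.Trim.T4.Gen
import Pool.Agent.Lib.MP_551055_al.Trim.T4.Perf
import Pool.Agent.Lib.MP_551055_al.Trim.T6.Basic
import Pool.Agent.Lib.MP_551055_al.Trim.T6.GenF
import Pool.Agent.Lib.MP_551055_al.Trim.T6.Lps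
import Pool.Agent.Lib.MP_551055_al.Trim.T6.StepA
import Pool.Agent.Lib.MP_551055_al.Trim.T6.StepB

/-!
# Groups of dimension at most two have stably locally perfect kernels over all coefficients
-/

set_option autoImplicit false

namespace Pool.Agent.Lib.MP_551055_al
end Pool.Agent.Lib.MP_551055_al

namespace Pool.Agent.Lib.MP_551055_al.LS
end Pool.Agent.Lib.MP_551055_al.LS

namespace Pool.Agent.Lib.MP_551055_al.T4
end Pool.Agent.Lib.MP_551055_al.T4

namespace Pool.Agent.Lib.MP_551055_al.T6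

open Pool.Agent.Lib.MP_551055_al

open Pool.Agent.Lib.MP_551055_al.LS

open Pool.Agent.Lib.MP_551055_al.T4

universe u

section

variable {A : Type u} [CommRing A] {Γ : Type u} [Group Γ]
  (hA : ∀ (N : Type u) [AddCommGroup N] [Module A N], Module.Finite A N → Perf A N)

include hA in
/-- The induction over the ideals. -/
theorem lpi_of_two [IsNoetherianRing A] (hD : TWO.{u, u} Γ) (I : Ideal A) : LPI Γ I := by
  classical
  refine IsNoetherian.induction (P := fun I : Ideal A => LPI Γ I) (fun I ih => ?_) I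
  refine lpi_of_free hA I fun ι κ _ _ f s hs hsf => ?_
  by_cases hI : I = ⊤
  · refine ⟨EI Γ (Fin 0) I, inferInstance, inferInstance, perf_EI hA, kil_EI, ⊤,
      ((perf_EI hA).prod (perf_EI hA)).congr Submodule.topEquiv.symm,
      fun _ _ => Submodule.mem_top, fun v _ => ?_⟩
    have h1 := kil_EI (Γ := Γ) (ι := κ) (I := I) 1 (by rw [hI]; exact Submodule.mem_top) (f v.1)
    rwa [map_one, one_smul] at h1
  obtain ⟨q, hq⟩ := Ideal.nonempty_minimalPrimes hI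
  have hqp : q.IsPrime := hq.1.1
  have hIq : I ≤ q := hq.1.2
  obtain ⟨J, hJ⟩ : ∃ J : Ideal A, J = loc q I := ⟨_, rfl⟩
  have hIJ : I ≤ J := by rw [hJ]; exact le_loc q I
  have hJq : J ≤ q := by rw [hJ]; exact loc_le q hIq
  have hsat : ∀ c a : A, c ∉ q → c * a ∈ J → a ∈ J := by
    intro c a hc h
    rw [hJ] at h ⊢
    exact loc_sat hc h
  obtain ⟨t, c₀, hc₀, ht₀⟩ := exists_pow_mul_le hq
  have ht : q ^ t ≤ J := by
    intro x hx
    rw [hJ]
    exact ⟨c₀, hc₀, ht₀ x hx⟩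
  obtain ⟨c₁, hc₁, hc₁J⟩ : ∃ c ∉ q, ∀ a ∈ J, c * a ∈ I := by
    rw [hJ]
    exact exists_mul_loc q I
  have hc₁I : ∀ a, c₁ * a ∈ I → a ∈ J := by
    intro a ha
    rw [hJ]
    exact ⟨c₁, hc₁, ha⟩
  -- multiplication by `c₁`
  have hmul : ∀ (ν : Type) (x : EI Γ ν I), rd hIJ Γ ν x = 0 ↔
      algebraMap A (MonoidAlgebra A Γ) c₁ • x = 0 := by
    intro ν x
    obtain ⟨v, rfl⟩ := Submodule.mkQ_surjective _ x
    rw [rd_eq_zero, ← map_smul]
    constructor
    · intro h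
      refine (Submodule.Quotient.mk_eq_zero _).2 fun i g => ?_
      rw [Pi.smul_apply, smul_eq_mul, coeff_algebraMap_mul]
      exact hc₁J _ (h i g)
    · intro h i g
      have h1 := (Submodule.Quotient.mk_eq_zero _).1 h i g
      rw [Pi.smul_apply, smul_eq_mul, coeff_algebraMap_mul] at h1
      exact hc₁I _ h1
  obtain ⟨ε, hε⟩ := exists_factor (rd hIJ Γ ι) (rd_surjective hIJ)
    (cmul (T := MonoidAlgebra A Γ) c₁ (EI Γ ι I)) fun x hx => (hmul ι x).1 hx
  have hε' : ∀ x, ε (rd hIJ Γ ι x) = algebraMap A (MonoidAlgebra A Γ) c₁ • x := hε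
  have hεi : Function.Injective ε := by
    rw [injective_iff_map_eq_zero]
    intro x hx
    obtain ⟨x, rfl⟩ := rd_surjective hIJ x
    rw [hε'] at hx
    exact (hmul ι x).2 hx
  obtain ⟨fJ, hfJ⟩ := exists_factor (rd hIJ Γ ι) (rd_surjective hIJ)
    (rd hIJ Γ κ ∘ₗ f) fun x hx => by
      rw [LinearMap.comp_apply, hmul, ← map_smul, (hmul ι x).1 hx, map_zero]
  have hfε : ∀ x, fJ x = 0 → f (ε x) = 0 := by
    intro x hx
    obtain ⟨x, rfl⟩ := rd_surjective hIJ x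
    rw [hfJ, LinearMap.comp_apply, hmul] at hx
    rw [hε', map_smul, hx]
  obtain ⟨c₂, Q, _, _, hc₂, hQ, kQ, tQ, V, hV, hsV, hfV⟩ := stepB hA q hD J hJq hsat t ht
    (fun a ha => ih a (lt_of_le_of_lt hIJ ha)) fJ (rd hIJ Γ ι '' s) (hs.image _) (by
      rintro _ ⟨y, hy, rfl⟩
      rw [hfJ, LinearMap.comp_apply, hsf y hy, map_zero])
  have hc : c₁ * c₂ ∉ q := mul_notMem hc₁ hc₂
  have hεQ : Function.Injective (ε.prodMap (LinearMap.id : Q →ₗ[MonoidAlgebra A Γ] Q)) := by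
    rintro ⟨x, z⟩ ⟨x', z'⟩ h
    have h1 : ε x = ε x' := congrArg (fun t => t.1) h
    have h2 : z = z' := congrArg (fun t => t.2) h
    rw [hεi h1, h2]
  refine stepA I (c₁ * c₂) (ih _ (lt_sup_span hIq hc)) (perf_EI hA) hQ (perf_tor hA _)
    (perf_tor hA _) kil_EI kil_EI (kQ.mono hIJ) (fun z hz => tQ _ hc z hz) f
    (V.map (ε.prodMap (LinearMap.id : Q →ₗ[MonoidAlgebra A Γ] Q))) (perf_map_inj _ hεQ V hV)
    ?_ ?_ s hs hsf ?_
  · rintro _ ⟨v, hv, rfl⟩ h
    rw [← map_smul, ← map_zero (ε.prodMap (LinearMap.id : Q →ₗ[MonoidAlgebra A Γ] Q))] at h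
    have h1 := hεQ h
    have h2 : v = 0 := ((tf_EI hsat).prod tQ) _ hc v h1
    rw [h2, map_zero]
  · rintro _ ⟨v, hv, rfl⟩
    exact hfε _ (hfV v hv)
  · intro y hy
    refine ⟨_, hsV _ ⟨y, hy, rfl⟩, ?_⟩
    refine Prod.ext ?_ rfl
    change ε (algebraMap A (MonoidAlgebra A Γ) c₂ • rd hIJ Γ ι y) = _
    rw [map_smul, hε', mul_comm, map_mul, mul_smul]

include hA in
/-- Groups of dimension at most two have stably locally perfect kernels. -/
theorem lps_of_two [IsNoetherianRing A] (hD : TWO.{u, u} Γ) : LPS (MonoidAlgebra A Γ) := by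
  classical
  intro n a f s hs
  have hbot : ∀ (M : Type u) [AddCommGroup M] [Module (MonoidAlgebra A Γ) M],
      Kil (Γ := Γ) (⊥ : Ideal A) M := by
    intro M _ _ b hb m
    rw [(Submodule.mem_bot A).1 hb, map_zero, zero_smul]
  obtain ⟨Q, _, _, hQ, -, V, hV, hsV, hfV⟩ := lpi_of_two hA hD (⊥ : Ideal A) _ _ f
    (Perf.free (Fin n)) (Perf.free (Fin a)) (hbot _) (hbot _) (s : Set _) s.finite_toSet
    fun y hy => hs y hy
  have : Module.Finite (MonoidAlgebra A Γ) Q := hQ.finite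
  obtain ⟨m, τ, hτ⟩ := Module.Finite.exists_fin' (MonoidAlgebra A Γ) Q
  have hkτ : Perf (MonoidAlgebra A Γ) (LinearMap.ker τ) := Perf.ker τ hτ (Perf.free _) hQ
  let θ : ((Fin n → MonoidAlgebra A Γ) × (Fin m → MonoidAlgebra A Γ)) →ₗ[MonoidAlgebra A Γ]
      (Fin n → MonoidAlgebra A Γ) × Q := LinearMap.id.prodMap τ
  refine ⟨m, V.comap θ, fun y hy => hfV _ hy, fun x hx => ?_,
    perf_comap θ (perf_ker_prodMap _ _ perf_ker_id hkτ) V ?_ hV⟩
  · change (x, τ 0) ∈ V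
    rw [map_zero]
    exact hsV x hx
  · rintro ⟨x, z⟩ _
    obtain ⟨z, rfl⟩ := hτ z
    exact ⟨(x, z), rfl⟩

end

end Pool.Agent.Lib.MP_551055_al.T6
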