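import Mathlib
import Pool.Agent.Lib.MP_551055_al.Trim.LS.PStmts
import Pool.Agent.Lib.MP_551055_al.Trim.LS.Stmts
import Pool.Agent.Lib.MP_551055_al.Trim.T4.Alg
import Pool.Agent.Lib.MP_551055_al.Trim.T4.MainT
import Pool.Agent.Lib.MP_551055_al.Trim.T6.Lps
import Pool.Agent.Lib.MP_551055_al.Trim.T6.Nil
import Pool.Agent.Lib.MP_551055_al.Trim.T6.Two

/-!
# Groups of dimension at most two
-/

set_option autoImplicit false

namespace Pool.Agent.Lib.MP_551055_al
end Pool.Agent.Lib.MP_551055_al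

namespace Pool.Agent.Lib.MP_551055_al.LS
end Pool.Agent.Lib.MP_551055_al.LS

namespace Pool.Agent.Lib.MP_551055_al.T4
end Pool.Agent.Lib.MP_551055_al.T4

namespace Pool.Agent.Lib.MP_551055_al.T6

open Pool.Agent.Lib.MP_551055_al

open Pool.Agent.Lib.MP_551055_al.LS

open Pool.Agent.Lib.MP_551055_al.T4

/-- The kernels over all `ℤ[D × ℤ^m]` are stably locally perfect if `D` has dimension at most
two. -/
theorem StLPS.of_two {D : Type} [Group D] (h : TWO.{0, 0} D) : StLPS D := by
  intro m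
  have hn := (regNoeth_zn m).1
  have h1 : LPS (MonoidAlgebra (MonoidAlgebra ℤ (ZN m)) D) :=
    lps_of_two (fun N _ _ hN => (regNoeth_zn m).2 N hN) h
  exact h1.congr (MonoidAlgebra.curryRingEquiv (R := ℤ) (M := D) (N := ZN m)).symm

end Pool.Agent.Lib.MP_551055_al.T6
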