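import Mathlib
import Pool.Agent.Lib.MP_551055_al.Trim.LO.Base
import Pool.Agent.Lib.MP_551055_al.Trim.LS.FFR
import Pool.Agent.Lib.MP_551055_al.Trim.LS.Final
import Pool.Agent.Lib.MP_551055_al.Trim.LS.PExt
import Pool.Agent.Lib.MP_551055_al.Trim.LS.PSes
import Pool.Agent.Lib.MP_551055_al.Trim.LS.PStmts
import Pool.Agent.Lib.MP_551055_al.Trim.LS.Stmts
import Pool.Agent.Lib.MP_551055_al.Trim.T6.Lps

/-!
# Stably locally perfect submodules
-/

set_option autoImplicit false

namespace Pool.Agent.Lib.MP_551055_al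
end Pool.Agent.Lib.MP_551055_al

namespace Pool.Agent.Lib.MP_551055_al.LS
end Pool.Agent.Lib.MP_551055_al.LS

namespace Pool.Agent.Lib.MP_551055_al.LO
end Pool.Agent.Lib.MP_551055_al.LO

namespace Pool.Agent.Lib.MP_551055_al.T4
end Pool.Agent.Lib.MP_551055_al.T4

namespace Pool.Agent.Lib.MP_551055_al.T6

open Pool.Agent.Lib.MP_551055_al

open Pool.Agent.Lib.MP_551055_al.LS

open Pool.Agent.Lib.MP_551055_al.LO

open Pool.Agent.Lib.MP_551055_al.T4

universe u

/-- `N` is stably locally perfect. -/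
def SLP {R : Type u} [Ring R] {M : Type u} [AddCommGroup M] [Module R M] (N : Submodule R M) :
    Prop :=
  ∀ s : Set M, s.Finite → s ⊆ N → ∃ (m : ℕ) (V : Submodule R (M × (Fin m → R))),
    (∀ y ∈ V, y.1 ∈ N) ∧ (∀ x ∈ s, ((x, 0) : M × (Fin m → R)) ∈ V) ∧ ∃ d, FFR R d V

theorem lps_iff {R : Type u} [Ring R] : LPS R ↔ ∀ (a b : ℕ)
    (φ : (Fin a → R) →ₗ[R] (Fin b → R)), SLP (LinearMap.ker φ) := by
  classical
  constructor
  · intro h a b φ s hs hsφ
    obtain ⟨m, V, h1, h2, h3⟩ := h a b φ hs.toFinset fun x hx => hsφ (hs.mem_toFinset.1 hx)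
    exact ⟨m, V, h1, fun x hx => h2 x (hs.mem_toFinset.2 hx), h3⟩
  · intro h a b φ s hs
    exact h a b φ s s.finite_toSet fun x hx => hs x hx

section Semi

variable {R R' : Type u} [Ring R] [Ring R'] {σ : R →+* R'} {σ' : R' →+* R}
  [RingHomInvPair σ σ'] [RingHomInvPair σ' σ]

/-- The product of semilinear equivalences. -/
def prodSemi {M M' N N' : Type u} [AddCommGroup M] [Module R M] [AddCommGroup M'] [Module R' M']
    [AddCommGroup N] [Module R N] [AddCommGroup N'] [Module R' N'] (E : M ≃ₛₗ[σ] M')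
    (E' : N ≃ₛₗ[σ] N') : (M × N) ≃ₛₗ[σ] (M' × N') where
  toFun x := (E x.1, E' x.2)
  invFun x := (E.symm x.1, E'.symm x.2)
  left_inv x := Prod.ext (E.symm_apply_apply _) (E'.symm_apply_apply _)
  right_inv x := Prod.ext (E.apply_symm_apply _) (E'.apply_symm_apply _)
  map_add' x y := Prod.ext (map_add E _ _) (map_add E' _ _)
  map_smul' r x := Prod.ext (E.map_smulₛₗ r x.1) (E'.map_smulₛₗ r x.2)

/-- The identity of a ring as a semilinear equivalence of free modules. -/
def piS (m : ℕ) : (Fin m → R) ≃ₛₗ[σ] (Fin m → R') where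
  toFun x := fun i => σ (x i)
  invFun x := fun i => σ' (x i)
  left_inv x := funext fun i => RingHomInvPair.comp_apply_eq
  right_inv x := funext fun i => RingHomInvPair.comp_apply_eq₂
  map_add' x y := funext fun i => map_add σ _ _
  map_smul' r x := funext fun i => map_mul σ _ _

/-- Semilinear equivalences preserve stably locally perfect submodules. -/
theorem SLP.semi {M M' : Type u} [AddCommGroup M] [Module R M]
    [AddCommGroup M'] [Module R' M'] (E : M ≃ₛₗ[σ] M') {N : Submodule R M}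
    {N' : Submodule R' M'} (hN : ∀ y, y ∈ N ↔ E y ∈ N') (h : SLP N) : SLP N' := by
  intro s hs hsN
  obtain ⟨m, V, h1, h2, d, h3⟩ := h (E ⁻¹' s) (hs.preimage E.injective.injOn)
    (fun y hy => (hN y).2 (hsN hy))
  let F : (M × (Fin m → R)) ≃ₛₗ[σ] (M' × (Fin m → R')) := prodSemi E (piS m)
  refine ⟨m, V.map F.toLinearMap, ?_, fun y hy => ?_, d, FFR.semi d (F.submoduleMap V) h3⟩
  · rintro _ ⟨y, hy, rfl⟩
    exact (hN y.1).1 (h1 y hy)
  · refine ⟨(E.symm y, 0), h2 _ (by
      change E (E.symm y) ∈ s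
      rwa [LinearEquiv.apply_symm_apply]), ?_⟩
    change (E (E.symm y), fun i => σ ((0 : Fin m → R) i)) = (y, 0)
    rw [LinearEquiv.apply_symm_apply]
    exact Prod.ext rfl (funext fun i => map_zero σ)

end Semi

section Ring

variable {R : Type u} [Ring R] {M M' : Type u} [AddCommGroup M] [Module R M]
  [AddCommGroup M'] [Module R M']

/-- Images of stably locally perfect submodules under maps with perfect kernels. -/
theorem SLP.map_of_ker (π : M →ₗ[R] M') {B : Submodule R M} (hB : SLP B)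
    (hk : ∃ d, FFR R d (B ⊓ LinearMap.ker π : Submodule R M)) : SLP (B.map π) := by
  obtain ⟨d, hd⟩ := hk
  have hfg : (B ⊓ LinearMap.ker π : Submodule R M).FG := Module.Finite.iff_fg.1 hd.finite
  obtain ⟨t, ht⟩ := hfg
  have htB : ∀ x ∈ t, x ∈ B ∧ x ∈ LinearMap.ker π := fun x hx => by
    have h1 : x ∈ (B ⊓ LinearMap.ker π : Submodule R M) := by
      rw [← ht]
      exact Submodule.subset_span hx
    exact h1
  intro s hs hsB
  choose σ hσ1 hσ2 using fun y : s => hsB y.2
  have hfin : (Set.range σ ∪ (t : Set M)).Finite := by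
    have : Finite s := hs
    exact (Set.finite_range σ).union t.finite_toSet
  obtain ⟨m, V, h1, h2, dV, h3⟩ := hB (Set.range σ ∪ t) hfin (by
    rintro x (⟨y, rfl⟩ | hx)
    · exact hσ1 y
    · exact (htB x hx).1)
  let P : M × (Fin m → R) →ₗ[R] M' × (Fin m → R) := π.prodMap LinearMap.id
  have hKV : ∀ x ∈ (B ⊓ LinearMap.ker π : Submodule R M),
      ((x, 0) : M × (Fin m → R)) ∈ V := by
    have h4 : (B ⊓ LinearMap.ker π : Submodule R M) ≤ V.comap (LinearMap.inl R M (Fin m → R)) := by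
      rw [← ht, Submodule.span_le]
      exact fun x hx => h2 x (Or.inr hx)
    exact fun x hx => h4 hx
  refine ⟨m, V.map P, ?_, ?_, ?_⟩
  · rintro _ ⟨y, hy, rfl⟩
    exact ⟨y.1, h1 y hy, rfl⟩
  · intro x hx
    refine ⟨(σ ⟨x, hx⟩, 0), h2 _ (Or.inl ⟨_, rfl⟩), ?_⟩
    exact Prod.ext (hσ2 ⟨x, hx⟩) rfl
  · let q : V →ₗ[R] V.map P := P.restrict fun y hy => ⟨y, hy, rfl⟩
    let i : (B ⊓ LinearMap.ker π : Submodule R M) →ₗ[R] V :=
      ((LinearMap.inl R M (Fin m → R)) ∘ₗ (B ⊓ LinearMap.ker π : Submodule R M).subtype).codRestrict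
        V fun x => hKV x x.2
    refine ⟨max d dV + 1, stPSes stPExt R (max d dV) _ V (V.map P) i q ?_ ?_ ?_
      (hd.mono (le_max_left _ _)) (h3.mono (le_max_right _ _))⟩
    · intro x y hxy
      exact Subtype.ext (congrArg (fun z : V => z.1.1) hxy)
    · rintro ⟨_, y, hy, rfl⟩
      exact ⟨⟨y, hy⟩, rfl⟩
    · ext y
      rw [LinearMap.mem_range, LinearMap.mem_ker]
      constructor
      · rintro ⟨x, rfl⟩
        exact Subtype.ext (Prod.ext (LinearMap.mem_ker.1 x.2.2) rfl)
      · intro hy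
        have h4 : P y.1 = 0 := congrArg Subtype.val hy
        have h5 : π y.1.1 = 0 := congrArg Prod.fst h4
        have h6 : y.1.2 = 0 := congrArg Prod.snd h4
        refine ⟨⟨y.1.1, h1 y.1 y.2, LinearMap.mem_ker.2 h5⟩, ?_⟩
        exact Subtype.ext (Prod.ext rfl h6.symm)

/-- Injective images. -/
theorem SLP.map {π : M →ₗ[R] M'} (hπ : Function.Injective π) {B : Submodule R M} (hB : SLP B) :
    SLP (B.map π) := by
  refine hB.map_of_ker π ⟨0, ?_⟩
  have : Subsingleton (B ⊓ LinearMap.ker π : Submodule R M) := by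
    refine ⟨fun a b => Subtype.ext ?_⟩
    have h1 := LinearMap.mem_ker.1 a.2.2
    have h2 := LinearMap.mem_ker.1 b.2.2
    exact hπ (h1.trans h2.symm)
  exact FFR.of_subsingleton 0

/-- The kernel of a map from a perfect module to a free module is stably locally perfect. -/
theorem slp_ker (h : LPS R) {E : Type u} [AddCommGroup E]
    [Module R E] [Module.Free R E] (hM : ∃ d, FFR R d M) (g : M →ₗ[R] E) :
    SLP (LinearMap.ker g) := by
  obtain ⟨d, hd⟩ := hM
  obtain ⟨n, π, hπ, hk⟩ := hd.succ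
  obtain ⟨m, f, hf⟩ := exists_ker_eq (g ∘ₗ π)
  have h1 : SLP (LinearMap.ker (g ∘ₗ π)) := by
    rw [← hf]
    exact lps_iff.1 h n m f
  have h2 : (LinearMap.ker (g ∘ₗ π)).map π = LinearMap.ker g := by
    ext y
    constructor
    · rintro ⟨x, hx, rfl⟩
      exact hx
    · intro hy
      obtain ⟨x, rfl⟩ := hπ y
      exact ⟨x, hy, rfl⟩
  rw [← h2]
  refine h1.map_of_ker π ⟨d, ?_⟩
  have h3 : (LinearMap.ker (g ∘ₗ π) ⊓ LinearMap.ker π : Submodule R (Fin n → R)) =
      LinearMap.ker π := by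
    refine inf_eq_right.2 fun x hx => ?_
    rw [LinearMap.mem_ker, LinearMap.comp_apply, LinearMap.mem_ker.1 hx, map_zero]
  rw [h3]
  exact hk

/-- The vectors of a perfect submodule `T` which are killed by a map to a free module. -/
theorem slp_sub (h : LPS R) {E : Type u} [AddCommGroup E]
    [Module R E] [Module.Free R E] (T A : Submodule R M) (hT : ∃ d, FFR R d T) (g : T →ₗ[R] E)
    (hA : ∀ y : T, g y = 0 ↔ (y : M) ∈ A) (hAT : A ≤ T) : SLP A := by
  have h1 := (slp_ker h hT g).map T.injective_subtype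
  have h2 : (LinearMap.ker g).map T.subtype = A := by
    ext y
    constructor
    · rintro ⟨z, hz, rfl⟩
      exact (hA z).1 hz
    · intro hy
      exact ⟨⟨y, hAT hy⟩, (hA ⟨y, hAT hy⟩).2 hy, rfl⟩
  rwa [h2] at h1

end Ring

end Pool.Agent.Lib.MP_551055_al.T6
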