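import Mathlib
import Pool.Agent.Lib.MP_551055_al.Trim.Descent
import Pool.Agent.Lib.MP_551055_al.Trim.LO.Nil
import Pool.Agent.Lib.MP_551055_al.Trim.LO.Pf
import Pool.Agent.Lib.MP_551055_al.Trim.LS.FFR
import Pool.Agent.Lib.MP_551055_al.Trim.LS.Pos
import Pool.Agent.Lib.MP_551055_al.Trim.LS.Stmts
import Pool.Agent.Lib.MP_551055_al.Trim.Red.Orb
import Pool.Agent.Lib.MP_551055_al.Trim.T6.SLP

/-!
# Graded submodules with stably locally perfect parts are stably locally perfect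
-/

set_option autoImplicit false

namespace Pool.Agent.Lib.MP_551055_al
end Pool.Agent.Lib.MP_551055_al

namespace Pool.Agent.Lib.MP_551055_al.LS
end Pool.Agent.Lib.MP_551055_al.LS

namespace Pool.Agent.Lib.MP_551055_al.LO
end Pool.Agent.Lib.MP_551055_al.LO

namespace Pool.Agent.Lib.MP_551055_al.T4
end Pool.Agent.Lib.MP_551055_al.T4

namespace Pool.Agent.Lib.MP_551055_al.Red
end Pool.Agent.Lib.MP_551055_al.Red

namespace Pool.Agent.Lib.MP_551055_al.T6

open Pool.Agent.Lib.MP_551055_al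

open Pool.Agent.Lib.MP_551055_al.LS

open Pool.Agent.Lib.MP_551055_al.LO

open Pool.Agent.Lib.MP_551055_al.T4

open Pool.Agent.Lib.MP_551055_al.Red (Vec vec_smul_apply)

universe u v

section

variable {Γ : Type u} [Group Γ] {X : Type v} [MulAction Γ X] {ι : Type}

/-- The graded submodule with given perfect parts at the representatives. -/
theorem exists_grd [Finite ι] (p : ι → X) (B : Submodule (ZG Γ) (F Γ ι)) (R : X → X)
    (τ : X → Γ) (hτ : ∀ x, τ x • x = R x) (hR : ∀ (γ : Γ) x, R (γ • x) = R x)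
    (W : ∀ x : X, Submodule (MonoidAlgebra ℤ (MulAction.stabilizer Γ x))
      (Vec (MulAction.stabilizer Γ x) ι))
    (hWB : ∀ x, W x ≤ homIn B p x)
    (hWf : ∀ x, (∃ i, R (p i) = x) →
      ∃ d, FFR (MonoidAlgebra ℤ (MulAction.stabilizer Γ x)) d (W x))
    (S : Set (F Γ ι))
    (hS : ∀ y ∈ S, ∀ w : X,
      toV (R w) ((MonoidAlgebra.single (τ w) (1 : ℤ) : ZG Γ) • pr p {w} y) ∈ W (R w)) :
    ∃ B' : Submodule (ZG Γ) (F Γ ι), B' ≤ B ∧ S ⊆ B' ∧ (∀ P, ∀ y ∈ B', pr p P y ∈ B') ∧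
      ∀ i, ∃ d, FFR (MonoidAlgebra ℤ (MulAction.stabilizer Γ (p i))) d (homIn B' p (p i)) := by
  classical
  have hRR : ∀ x, R (R x) = R x := fun x => by
    conv_lhs => rw [← hτ x, hR]
  have hgr : ∀ P, ∀ y ∈ grd p R W, pr p P y ∈ grd p R W := by
    intro P y hy γ x hx
    have h1 : pr p {x} ((MonoidAlgebra.single γ (1 : ℤ) : ZG Γ) • pr p P y) =
        (MonoidAlgebra.single γ (1 : ℤ) : ZG Γ) • pr p {γ⁻¹ • x} (pr p P y) := by
      have h2 := pr_smul_singleton p (γ⁻¹ • x) γ 1 (pr p P y)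
      rwa [smul_inv_smul] at h2
    rw [h1, pr_pr]
    by_cases hP : γ⁻¹ • x ∈ P
    · rw [Set.inter_eq_left.2 (Set.singleton_subset_iff.2 hP)]
      have h2 := pr_smul_singleton p (γ⁻¹ • x) γ 1 y
      rw [smul_inv_smul] at h2
      rw [← h2]
      exact hy γ x hx
    · rw [(Set.disjoint_singleton_left.2 hP).inter_eq, pr_empty, smul_zero]
      exact (W x).zero_mem
  have hpart : ∀ x, R x = x → homIn (grd p R W) p x = W x := by
    intro x hx
    ext y
    constructor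
    · rintro ⟨h1, h2⟩
      have h3 : toV x (pr p {x} ((MonoidAlgebra.single (1 : Γ) (1 : ℤ) : ZG Γ) • asF y)) ∈ W x :=
        h2 1 x hx
      rw [← MonoidAlgebra.one_def, one_smul] at h3
      have h4 : pr p {x} (asF y) = asF y := h1
      rw [h4] at h3
      exact h3
    · intro hy
      have h1 : In p {x} (asF y) := (hWB x hy).1
      refine ⟨h1, fun γ z hz => ?_⟩
      have h2 := h1.smul_singleton γ 1
      by_cases hγ : γ • x = z
      · have h3 : z = x := by
          rw [← hz, ← hγ, hR, hx]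
        subst h3
        rw [hγ] at h2
        have h4 := h2.eq
        change pr p {z} ((MonoidAlgebra.single γ (1 : ℤ) : ZG Γ) • asF y) ∈ W z
        rw [h4]
        exact stab_smul_mem (W z) hγ hy
      · have h3 := h2.pr_eq_zero (Set.disjoint_singleton.2 (Ne.symm hγ))
        change pr p {z} ((MonoidAlgebra.single γ (1 : ℤ) : ZG Γ) • asF y) ∈ W z
        rw [h3]
        exact (W z).zero_mem
  refine ⟨grd p R W, fun y hy => ?_, fun y hy γ x hx => ?_, hgr, fun i => ?_⟩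
  · -- contained in `B`
    obtain ⟨t, -, ht'⟩ := exists_sum_pr p y
    rw [ht']
    refine Submodule.sum_mem _ fun w _ => ?_
    have h1 := hy (τ w) (R w) (hRR w)
    have h2 := pr_smul_singleton p w (τ w) 1 y
    rw [hτ] at h2
    rw [h2] at h1
    have h3 := (hWB (R w) h1).2
    exact (mulE_mem_iff B (τ w) (pr p {w} y)).1 h3
  · -- contains `S`
    have h1 : pr p {x} ((MonoidAlgebra.single γ (1 : ℤ) : ZG Γ) • y) =
        (MonoidAlgebra.single γ (1 : ℤ) : ZG Γ) • pr p {γ⁻¹ • x} y := by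
      have h2 := pr_smul_singleton p (γ⁻¹ • x) γ 1 y
      rwa [smul_inv_smul] at h2
    rw [h1]
    generalize hw : γ⁻¹ • x = w
    have hγw : γ • w = x := by rw [← hw, smul_inv_smul]
    have hRw : R w = x := by rw [← hw, hR, hx]
    have h2 := hS y hy w
    rw [hRw] at h2
    have h3 : (γ * (τ w)⁻¹) • x = x := by
      rw [mul_smul, ← hRw, ← hτ, inv_smul_smul, hγw, hτ, hRw]
    have h4 := stab_smul_mem (W x) h3 h2
    rw [smul_smul, MonoidAlgebra.single_mul_single, inv_mul_cancel_right, one_mul] at h4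
    exact h4
  · -- perfect parts
    have h1 := hWf (R (p i)) ⟨i, rfl⟩
    rw [← hpart (R (p i)) (hRR _)] at h1
    have h2 := ffr_homIn_smul (grd p R W) p (τ (p i))⁻¹ (R (p i)) h1
    have h3 : (τ (p i))⁻¹ • R (p i) = p i := by rw [← hτ, inv_smul_smul]
    rwa [h3] at h2

/-- Parts at `γ x` are stably locally perfect if the parts at `x` are. -/
theorem slp_homIn_smul (B : Submodule (ZG Γ) (F Γ ι)) (p : ι → X) (γ : Γ) (x : X)
    (h : SLP (homIn B p x)) : SLP (homIn B p (γ • x)) := by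
  obtain ⟨σ, σ', h1, h2, E, hE⟩ := conj_aux (ι := ι) γ x
  refine SLP.semi E (fun y => ?_) h
  rw [hE]
  exact mem_homIn_smul B p γ x y

/-- The vectors on `ι ⊕ κ` whose restriction to `ι` is in `B`. -/
noncomputable def plus (B : Submodule (ZG Γ) (F Γ ι)) (κ : Type) : Submodule (ZG Γ) (F Γ (ι ⊕ κ)) :=
  B.comap (LinearMap.funLeft (ZG Γ) (ZG Γ) Sum.inl)

theorem pr_elim_zero {κ : Type} (p : ι → X) (q : κ → X) (P : Set X) (y : F Γ ι) :
    pr (Sum.elim p q) P (Sum.elim y 0 : F Γ (ι ⊕ κ)) = Sum.elim (pr p P y) 0 := by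
  classical
  refine F_ext fun i γ => ?_
  rcases i with i | i
  · rfl
  · rw [pr_coeff]
    split_ifs
    · rfl
    · rfl

theorem smul_elim_zero {κ : Type} (s : ZG Γ) (y : F Γ ι) :
    s • (Sum.elim y 0 : F Γ (ι ⊕ κ)) = Sum.elim (s • y) 0 := by
  funext i
  rcases i with i | i
  · rfl
  · exact smul_zero s

/-- The coordinates of the vectors placed at `x`. -/
noncomputable def embF [DecidableEq ι] (x : X) (i₀ : ι) (m M : ℕ)
    (r : Fin m → MonoidAlgebra ℤ (MulAction.stabilizer Γ x)) : F Γ (ι × Fin M) := fun a =>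
  if h : a.1 = i₀ ∧ (a.2 : ℕ) < m then
    inc ℤ (MulAction.stabilizer Γ x).subtype (r ⟨a.2, h.2⟩) else 0

theorem embF_apply [DecidableEq ι] (x : X) (i₀ : ι) (m M : ℕ)
    (r : Fin m → MonoidAlgebra ℤ (MulAction.stabilizer Γ x)) (a : ι × Fin M) :
    embF x i₀ m M r a = if h : a.1 = i₀ ∧ (a.2 : ℕ) < m then
      inc ℤ (MulAction.stabilizer Γ x).subtype (r ⟨a.2, h.2⟩) else 0 := rfl

/-- Vectors over the group ring of the stabiliser of `x` as vectors placed at `x`. -/
noncomputable def emb [DecidableEq ι] (x : X) (i₀ : ι) (m M : ℕ) :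
    (Fin m → MonoidAlgebra ℤ (MulAction.stabilizer Γ x))
      →ₗ[MonoidAlgebra ℤ (MulAction.stabilizer Γ x)]
      Vec (MulAction.stabilizer Γ x) (ι × Fin M) where
  toFun r := embF x i₀ m M r
  map_add' r s := by
    funext a
    change embF x i₀ m M (r + s) a = embF x i₀ m M r a + embF x i₀ m M s a
    rw [embF_apply, embF_apply, embF_apply]
    split_ifs
    · exact map_add _ _ _
    · exact (add_zero _).symm
  map_smul' c r := by
    funext a
    change embF x i₀ m M (c • r) a =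
      inc ℤ (MulAction.stabilizer Γ x).subtype c * embF x i₀ m M r a
    rw [embF_apply, embF_apply]
    split_ifs
    · exact map_mul _ _ _
    · exact (mul_zero _).symm

theorem emb_injective [DecidableEq ι] (x : X) (i₀ : ι) {m M : ℕ} (hm : m ≤ M) :
    Function.Injective (emb (Γ := Γ) x i₀ m M) := by
  intro r s h
  funext j
  have h1 := congrFun h (i₀, Fin.castLE hm j)
  have h2 : (i₀, Fin.castLE hm j).1 = i₀ ∧ ((i₀, Fin.castLE hm j).2 : ℕ) < m := ⟨rfl, j.2⟩
  change embF x i₀ m M r _ = embF x i₀ m M s _ at h1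
  rw [embF_apply, embF_apply, dif_pos h2, dif_pos h2] at h1
  exact inc_injective _ Subtype.val_injective h1

theorem emb_in [DecidableEq ι] (x : X) (i₀ : ι) (m M : ℕ) (q : ι × Fin M → X)
    (hq : ∀ j, q (i₀, j) = x) (r : Fin m → MonoidAlgebra ℤ (MulAction.stabilizer Γ x)) :
    In q {x} (asF (emb (Γ := Γ) x i₀ m M r)) := by
  refine in_iff.2 fun a γ hne => ?_
  obtain ⟨i, j⟩ := a
  change (embF x i₀ m M r (i, j)).coeff γ ≠ 0 at hne
  rw [embF_apply] at hne
  by_cases h : i = i₀ ∧ (j : ℕ) < m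
  · rw [dif_pos h] at hne
    obtain ⟨rfl, h2⟩ := h
    rw [hq, Set.mem_singleton_iff]
    by_contra hn
    apply hne
    refine inc_coeff_of_notMem _ _ _ ?_
    rintro ⟨δ, rfl⟩
    exact hn δ.2
  · rw [dif_neg h] at hne
    exact absurd rfl hne

/-- The map to vectors on `ι ⊕ (ι × Fin M)`. -/
noncomputable def embJ [DecidableEq ι] (x : X) (i₀ : ι) (m M : ℕ) :
    (Vec (MulAction.stabilizer Γ x) ι × (Fin m → MonoidAlgebra ℤ (MulAction.stabilizer Γ x)))
      →ₗ[MonoidAlgebra ℤ (MulAction.stabilizer Γ x)]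
      Vec (MulAction.stabilizer Γ x) (ι ⊕ (ι × Fin M)) where
  toFun y := Sum.elim y.1 (emb x i₀ m M y.2)
  map_add' y z := by
    funext a
    rcases a with a | a
    · rfl
    · exact congrFun (map_add (emb x i₀ m M) y.2 z.2) a
  map_smul' c y := by
    funext a
    rcases a with a | a
    · rfl
    · exact congrFun (map_smul (emb x i₀ m M) c y.2) a

theorem embJ_injective [DecidableEq ι] (x : X) (i₀ : ι) {m M : ℕ} (hm : m ≤ M) :
    Function.Injective (embJ (Γ := Γ) x i₀ m M) := by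
  intro y z h
  refine Prod.ext ?_ (emb_injective x i₀ hm ?_)
  · funext i
    exact congrFun h (Sum.inl i)
  · funext i
    exact congrFun h (Sum.inr i)

/-- Graded submodules with stably locally perfect parts are stably locally perfect. -/
theorem slp_of_parts (hInd : StInd.{u, v}) [Finite ι] (p : ι → X)
    (B : Submodule (ZG Γ) (F Γ ι)) (hB : ∀ P, ∀ y ∈ B, pr p P y ∈ B)
    (h : ∀ i, SLP (homIn B p (p i))) : SLP B := by
  classical
  intro S hS hSB
  obtain ⟨R, τ, hτ, hR⟩ := exists_rep Γ X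
  have hRR : ∀ x, R (R x) = R x := fun x => by
    conv_lhs => rw [← hτ x, hR]
  choose t ht ht' using fun y : F Γ ι => exists_sum_pr p y
  let Sx : ∀ x : X, Set (Vec (MulAction.stabilizer Γ x) ι) := fun x =>
    {z | ∃ y ∈ S, ∃ w ∈ t y, R w = x ∧
      z = toV x ((MonoidAlgebra.single (τ w) (1 : ℤ) : ZG Γ) • pr p {w} y)}
  have hSx : ∀ x, (Sx x).Finite := by
    intro x
    have h1 : (⋃ y ∈ S, ⋃ w ∈ t y, {toV x ((MonoidAlgebra.single (τ w) (1 : ℤ) : ZG Γ) •
        pr p {w} y)}).Finite :=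
      hS.biUnion fun y _ => (t y).finite_toSet.biUnion fun w _ => Set.finite_singleton _
    refine h1.subset ?_
    rintro z ⟨y, hy, w, hw, -, rfl⟩
    exact Set.mem_biUnion hy (Set.mem_biUnion hw rfl)
  have hSxB : ∀ x, Sx x ⊆ homIn B p x := by
    rintro x z ⟨y, hy, w, hw, hwx, rfl⟩
    have h1 : In p {w} (pr p {w} y) := in_pr p {w} y
    have h2 := h1.smul_singleton (τ w) 1
    rw [hτ, hwx] at h2
    exact ⟨h2, B.smul_mem _ (hB {w} y (hSB hy))⟩
  have hex : ∀ x, ∃ (m : ℕ) (V : Submodule (MonoidAlgebra ℤ (MulAction.stabilizer Γ x))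
      (Vec (MulAction.stabilizer Γ x) ι × (Fin m → MonoidAlgebra ℤ (MulAction.stabilizer Γ x)))),
      (∀ y ∈ V, y.1 ∈ homIn B p x) ∧ ((∃ i, R (p i) = x) →
        (∀ z ∈ Sx x, (z, 0) ∈ V) ∧
          ∃ d, FFR (MonoidAlgebra ℤ (MulAction.stabilizer Γ x)) d V) := by
    intro x
    by_cases hx : ∃ i, R (p i) = x
    · obtain ⟨i, hi⟩ := hx
      have h1 := slp_homIn_smul B p (τ (p i)) (p i) (h i)
      rw [hτ, hi] at h1
      obtain ⟨m, V, h2, h3, h4⟩ := h1 (Sx x) (hSx x) (hSxB x)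
      exact ⟨m, V, h2, fun _ => ⟨h3, h4⟩⟩
    · refine ⟨0, ⊥, fun y hy => ?_, fun h => absurd h hx⟩
      rw [(Submodule.mem_bot _).1 hy]
      exact (homIn B p x).zero_mem
  choose m V hV1 hV2 using hex
  have := Fintype.ofFinite ι
  obtain ⟨M, hM⟩ : ∃ M : ℕ, ∀ i, m (R (p i)) ≤ M :=
    ⟨Finset.univ.sup fun i => m (R (p i)), fun i =>
      Finset.le_sup (f := fun i => m (R (p i))) (Finset.mem_univ i)⟩
  let q : ι × Fin M → X := fun a => R (p a.1)
  have hexW : ∀ x, ∃ W : Submodule (MonoidAlgebra ℤ (MulAction.stabilizer Γ x))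
      (Vec (MulAction.stabilizer Γ x) (ι ⊕ (ι × Fin M))),
      W ≤ homIn (plus B (ι × Fin M)) (Sum.elim p q) x ∧ ((∃ i, R (p i) = x) →
        (∀ z ∈ Sx x, toV x (Sum.elim (asF z) 0) ∈ W) ∧
          ∃ d, FFR (MonoidAlgebra ℤ (MulAction.stabilizer Γ x)) d W) := by
    intro x
    by_cases hx : ∃ i, R (p i) = x
    · obtain ⟨i, hi⟩ := hx
      refine ⟨(V x).map (embJ x i (m x) M), ?_, fun _ => ⟨fun z hz => ?_, ?_⟩⟩
      · rintro _ ⟨y, hy, rfl⟩
        have h1 := hV1 x y hy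
        refine ⟨in_iff.2 ?_, h1.2⟩
        rintro (a | a) γ hne
        · exact in_iff.1 h1.1 a γ hne
        · exact in_iff.1 (emb_in x i (m x) M q (fun j => hi) y.2) a γ hne
      · refine ⟨(z, 0), (hV2 x ⟨i, hi⟩).1 z hz, ?_⟩
        funext a
        rcases a with a | a
        · rfl
        · exact congrFun (map_zero (emb x i (m x) M)) a
      · obtain ⟨d, hd⟩ := (hV2 x ⟨i, hi⟩).2
        have h1 : m x ≤ M := hi ▸ hM i
        exact ⟨d, hd.congr (Submodule.equivMapOfInjective _ (embJ_injective x i h1) _)⟩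
    · exact ⟨⊥, bot_le, fun h => absurd h hx⟩
  choose W hWB hW using hexW
  have hpos : ∀ (y : F Γ ι) (w : X), pr p {w} y ≠ 0 → ∃ i, R (p i) = R w := by
    intro y w hne
    by_contra hno
    apply hne
    refine F_ext fun i γ => ?_
    rw [pr_coeff]
    split_ifs with h
    · refine absurd ⟨i, ?_⟩ hno
      rw [← Set.mem_singleton_iff.1 h, hR]
    · rfl
  obtain ⟨B', h1, h2, h3, h4⟩ := exists_grd (Sum.elim p q) (plus B (ι × Fin M)) R τ hτ hR W hWB
    (by
      rintro x ⟨i | i, hi⟩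
      · exact (hW x ⟨i, hi⟩).2
      · refine (hW x ⟨i.1, ?_⟩).2
        rw [← hRR]
        exact hi)
    ((fun y : F Γ ι => (Sum.elim y 0 : F Γ (ι ⊕ (ι × Fin M)))) '' S) (by
      rintro _ ⟨y, hy, rfl⟩ w
      change toV (R w) ((MonoidAlgebra.single (τ w) (1 : ℤ) : ZG Γ) • pr (Sum.elim p q) {w}
        (Sum.elim y 0 : F Γ (ι ⊕ (ι × Fin M)))) ∈ W (R w)
      rw [pr_elim_zero, smul_elim_zero]
      by_cases hne : pr p {w} y = 0
      · rw [hne, smul_zero]
        have h5 : (Sum.elim 0 0 : F Γ (ι ⊕ (ι × Fin M))) = 0 := by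
          funext a
          rcases a with a | a <;> rfl
        rw [h5]
        exact (W (R w)).zero_mem
      · have hwt : w ∈ t y := by
          by_contra hn
          exact hne ((ht y).pr_eq_zero (Set.disjoint_singleton_left.2 hn))
        exact (hW (R w) (hpos y w hne)).1 _ ⟨y, hy, w, hwt, rfl, rfl⟩)
  obtain ⟨d, hd⟩ := ffr_of_parts hInd (Sum.elim p q) B' h3 h4
  let e : Fin (Fintype.card (ι × Fin M)) ≃ ι × Fin M := (Fintype.equivFin _).symm
  let E : F Γ (ι ⊕ (ι × Fin M)) ≃ₗ[ZG Γ]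
      (F Γ ι × (Fin (Fintype.card (ι × Fin M)) → ZG Γ)) :=
    (LinearEquiv.sumArrowLequivProdArrow ι (ι × Fin M) (ZG Γ) (ZG Γ)).trans
      (LinearEquiv.prodCongr (LinearEquiv.refl _ _) (LinearEquiv.funCongrLeft (ZG Γ) (ZG Γ) e))
  refine ⟨_, B'.map E.toLinearMap, ?_, fun x hx => ?_, d, hd.congr (E.submoduleMap B')⟩
  · rintro _ ⟨y, hy, rfl⟩
    exact h1 hy
  · exact ⟨Sum.elim x 0, h2 ⟨x, hx, rfl⟩, rfl⟩

end

end Pool.Agent.Lib.MP_551055_al.T6
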