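import Mathlib
import Pool.Agent.Lib.MP_551055_al.Trim.LO.Clo
import Pool.Agent.Lib.MP_551055_al.Trim.LO.Union
import Pool.Agent.Lib.MP_551055_al.Trim.LS.Clo
import Pool.Agent.Lib.MP_551055_al.Trim.LS.Final
import Pool.Agent.Lib.MP_551055_al.Trim.LS.Ind
import Pool.Agent.Lib.MP_551055_al.Trim.LS.Main
import Pool.Agent.Lib.MP_551055_al.Trim.LS.Nil
import Pool.Agent.Lib.MP_551055_al.Trim.LS.PStmts
import Pool.Agent.Lib.MP_551055_al.Trim.LS.Pos
import Pool.Agent.Lib.MP_551055_al.Trim.LS.Ray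
import Pool.Agent.Lib.MP_551055_al.Trim.LS.Stmts
import Pool.Agent.Lib.MP_551055_al.Trim.LS.TreeC
import Pool.Agent.Lib.MP_551055_al.Trim.LS.VecFree
import Pool.Agent.Lib.MP_551055_al.Trim.PT.Hull
import Pool.Agent.Lib.MP_551055_al.Trim.PT.MV
import Pool.Agent.Lib.MP_551055_al.Trim.Red.Orb
import Pool.Agent.Lib.MP_551055_al.Trim.T6.Lps
import Pool.Agent.Lib.MP_551055_al.Trim.T6.Nil
import Pool.Agent.Lib.MP_551055_al.Trim.T6.Pf
import Pool.Agent.Lib.MP_551055_al.Trim.T6.SLP
import Pool.Agent.Lib.MP_551055_al.Trim.T6.Tree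

/-!
# Stably locally perfect kernels: closure properties
-/

set_option autoImplicit false

namespace Pool.Agent.Lib.MP_551055_al
end Pool.Agent.Lib.MP_551055_al

namespace Pool.Agent.Lib.MP_551055_al.LS
end Pool.Agent.Lib.MP_551055_al.LS

namespace Pool.Agent.Lib.MP_551055_al.LO
end Pool.Agent.Lib.MP_551055_al.LO

namespace Pool.Agent.Lib.MP_551055_al.PT
end Pool.Agent.Lib.MP_551055_al.PT

namespace Pool.Agent.Lib.MP_551055_al.T4
end Pool.Agent.Lib.MP_551055_al.T4

namespace Pool.Agent.Lib.MP_551055_al.Red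
end Pool.Agent.Lib.MP_551055_al.Red

namespace Pool.Agent.Lib.MP_551055_al.T6

open Pool.Agent.Lib.MP_551055_al

open Pool.Agent.Lib.MP_551055_al.LS

open Pool.Agent.Lib.MP_551055_al.LO

open Pool.Agent.Lib.MP_551055_al.PT

open Pool.Agent.Lib.MP_551055_al.T4

open Pool.Agent.Lib.MP_551055_al.Red (Vec)

universe u v

section

variable {Γ : Type u} [Group Γ] {X : Type v} [MulAction Γ X] {ι κ : Type}

/-- The parts of the kernel of a map are stably locally perfect. -/
theorem slp_homIn_ker (hFree : StHomFree.{u, v}) (hVec : StVecFree.{u}) [Finite ι] [Finite κ]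
    (p : ι → X) (f : F Γ ι →ₗ[ZG Γ] F Γ κ) (x : X)
    (hx : LPS (MonoidAlgebra ℤ (MulAction.stabilizer Γ x))) :
    SLP (homIn (LinearMap.ker f) p x) := by
  have hfree := hVec Γ (MulAction.stabilizer Γ x) κ
  obtain ⟨k, ⟨e⟩⟩ := hFree Γ X ι p x
  refine slp_sub hx (homIn (⊤ : Submodule (ZG Γ) (F Γ ι)) p x) _
    ⟨0, Module.Finite.equiv e.symm, Module.Projective.of_equiv e.symm⟩
    (vecMap (MulAction.stabilizer Γ x) f ∘ₗ
      (homIn (⊤ : Submodule (ZG Γ) (F Γ ι)) p x).subtype) (fun y => ?_)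
    (fun _ hy => ⟨hy.1, trivial⟩)
  constructor
  · intro h
    exact ⟨y.2.1, h⟩
  · intro h
    exact h.2

end

/-- The kernels over the group ring of `Γ` are stably locally perfect if every finite subset of `Γ`
is contained in a subgroup with this property. -/
theorem lps_local (hInd : StInd.{u, u}) (hFree : StHomFree.{u, u}) (hVec : StVecFree.{u})
    {Γ : Type u} [Group Γ]
    (h : ∀ E : Set Γ, E.Finite → ∃ Δ : Subgroup Γ, E ⊆ Δ ∧ LPS (MonoidAlgebra ℤ Δ)) :
    LPS (ZG Γ) := by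
  classical
  refine lps_iff.2 fun n m f => ?_
  let e : Fin n → F Γ (Fin n) := fun i =>
    @Pi.single (Fin n) (fun _ => ZG Γ) _ (fun a b => Classical.propDecidable (a = b)) i 1
  obtain ⟨Δ, hEΔ, hLP⟩ := h (⋃ i : Fin n, ⋃ j : Fin m,
    {γ | (f (e i) j).coeff γ ≠ 0}) (Set.finite_iUnion fun i =>
      Set.finite_iUnion fun j => (f (e i) j).coeff.hasFiniteSupport)
  let x0 : Γ ⧸ Δ := (1 : Γ)
  have hst : MulAction.stabilizer Γ x0 = Δ := MulAction.stabilizer_quotient Δ
  have hgr : Gr (fun _ : Fin n => x0) (fun _ : Fin m => x0) f := by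
    refine gr_iff_tr.2 (tr_of_basis (fun γ a b hab => by rw [hab]) fun i => ?_)
    refine in_iff.2 fun j γ hne => ?_
    have h1 : γ ∈ Δ := hEΔ (Set.mem_iUnion.2 ⟨i, Set.mem_iUnion.2 ⟨j, hne⟩⟩)
    rw [← hst, MulAction.mem_stabilizer_iff] at h1
    exact h1.symm
  have hx0 : LPS (MonoidAlgebra ℤ (MulAction.stabilizer Γ x0)) := by
    rw [hst]
    exact hLP
  exact slp_of_parts hInd (fun _ : Fin n => x0) (LinearMap.ker f)
    (pr_mem_ker hgr) (fun _ => slp_homIn_ker (κ := Fin m) hFree hVec _ f x0 hx0)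

theorem StLPS.of_locPerf {D : Type} [Group D] (h : LocPerf D) : StLPS D :=
  fun m => LPS.of_lpk (h m)

theorem StLPS.of_small (hP : StPFin) {D : Type} [Group D] (h : LS.Small D) : StLPS D :=
  StLPS.of_locPerf (LocPerf.of_small hP h)

theorem StLPS.congr {D D' : Type} [Group D] [Group D'] (e : D ≃* D') (h : StLPS D) :
    StLPS D' := fun m =>
  (h m).congr (MonoidAlgebra.mapDomainRingEquiv ℤ (MulEquiv.prodCongr e (MulEquiv.refl _)))

/-- Unions. -/
theorem StLPS.of_local {D : Type} [Group D]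
    (h : ∀ s : Finset D, ∃ H : Subgroup D, (s : Set D) ⊆ H ∧ StLPS H) : StLPS D := by
  classical
  intro m
  refine lps_local stInd stHomFree stVecFree fun E hE => ?_
  obtain ⟨H, hH, hL⟩ := h (hE.toFinset.image Prod.fst)
  refine ⟨H.prod (⊤ : Subgroup (ZN m)), fun γ hγ => ?_, ?_⟩
  · refine Subgroup.mem_prod.2 ⟨hH ?_, Subgroup.mem_top _⟩
    rw [Finset.coe_image]
    exact ⟨γ, hE.mem_toFinset.2 hγ, rfl⟩
  · exact (hL m).congr (MonoidAlgebra.mapDomainRingEquiv ℤ
      ((MulEquiv.prodCongr (MulEquiv.refl _) Subgroup.topEquiv.symm).trans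
      (Subgroup.prodEquiv _ _).symm))

/-- Actions on trees such that the group rings of the edge stabilisers are regular coherent. -/
theorem StLPS.of_treeRegCoh {D : Type} [Group D] (V : Type) [MulAction D V] (T : SimpleGraph V)
    (hT : TreeAct D V T) (hv : ∀ v : V, StLPS (MulAction.stabilizer D v))
    (he : ∀ u v, T.Adj u v → ∀ m : ℕ,
      RegCoh (MonoidAlgebra ℤ (MulAction.stabilizer D (u, v) × ZN m))) : StLPS D := by
  intro m
  let _ : MulAction (D × ZN m) V := MulAction.compHom V (MonoidHom.fst D (ZN m))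
  have hA : TreeAct (D × ZN m) V T :=
    { tree := hT.tree
      adj := fun γ a b hab => hT.adj γ.1 a b hab
      inv := fun γ a b hab h => hT.inv γ.1 a b hab h }
  refine lps_tree stTreeC stHull stMV stInd stHomFree stVecFree V T hA (fun v => ?_)
    (fun u v huv => ?_)
  · exact (hv v m).congr (MonoidAlgebra.mapDomainRingEquiv ℤ
      { toFun := fun γ => ⟨(γ.1.1, γ.2), γ.1.2⟩
        invFun := fun γ => (⟨γ.1.1, γ.2⟩, γ.1.2)
        left_inv := fun _ => rfl
        right_inv := fun _ => rfl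
        map_mul' := fun _ _ => rfl })
  · exact RegCoh.congr (MonoidAlgebra.mapDomainRingEquiv ℤ
      { toFun := fun γ => ⟨(γ.1.1, γ.2), γ.1.2⟩
        invFun := fun γ => (⟨γ.1.1, γ.2⟩, γ.1.2)
        left_inv := fun _ => rfl
        right_inv := fun _ => rfl
        map_mul' := fun _ _ => rfl }) (he u v huv m)

/-- Actions on trees with small edge stabilisers. -/
theorem StLPS.of_tree {D : Type} [Group D] (V : Type) [MulAction D V]
    (T : SimpleGraph V) (hT : TreeAct D V T) (hv : ∀ v : V, StLPS (MulAction.stabilizer D v))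
    (he : ∀ u v, T.Adj u v → LS.Small (MulAction.stabilizer D (u, v))) : StLPS D :=
  StLPS.of_treeRegCoh V T hT hv fun u v huv m => (he u v huv).regCoh lsPFin m

end Pool.Agent.Lib.MP_551055_al.T6
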