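import Mathlib
import Pool.Agent.Lib.MP_551055_al.Trim.LO.Nil
import Pool.Agent.Lib.MP_551055_al.Trim.LO.Tree
import Pool.Agent.Lib.MP_551055_al.Trim.LS.FFR
import Pool.Agent.Lib.MP_551055_al.Trim.LS.Pos
import Pool.Agent.Lib.MP_551055_al.Trim.LS.Ray
import Pool.Agent.Lib.MP_551055_al.Trim.LS.Stmts
import Pool.Agent.Lib.MP_551055_al.Trim.PT.Base
import Pool.Agent.Lib.MP_551055_al.Trim.PT.Stmts
import Pool.Agent.Lib.MP_551055_al.Trim.Red.Orb
import Pool.Agent.Lib.MP_551055_al.Trim.T6.Lps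
import Pool.Agent.Lib.MP_551055_al.Trim.T6.Pf
import Pool.Agent.Lib.MP_551055_al.Trim.T6.SLP

/-!
# Groups which act on trees with regular coherent edge stabilisers

If the kernels over the group rings of the vertex stabilisers are stably locally perfect, and the
group rings of the edge stabilisers are regular coherent, then the kernels over the group ring are
stably locally perfect.
-/

set_option autoImplicit false

namespace Pool.Agent.Lib.MP_551055_al
end Pool.Agent.Lib.MP_551055_al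

namespace Pool.Agent.Lib.MP_551055_al.LS
end Pool.Agent.Lib.MP_551055_al.LS

namespace Pool.Agent.Lib.MP_551055_al.LO
end Pool.Agent.Lib.MP_551055_al.LO

namespace Pool.Agent.Lib.MP_551055_al.PT
end Pool.Agent.Lib.MP_551055_al.PT

namespace Pool.Agent.Lib.MP_551055_al.T4
end Pool.Agent.Lib.MP_551055_al.T4

namespace Pool.Agent.Lib.MP_551055_al.Red
end Pool.Agent.Lib.MP_551055_al.Red

namespace Pool.Agent.Lib.MP_551055_al.T6

open Pool.Agent.Lib.MP_551055_al

open Pool.Agent.Lib.MP_551055_al.LS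

open Pool.Agent.Lib.MP_551055_al.LO

open Pool.Agent.Lib.MP_551055_al.PT

open Pool.Agent.Lib.MP_551055_al.T4

open Pool.Agent.Lib.MP_551055_al.Red (Vec)

universe u v

section Parts

variable {Γ : Type u} [Group Γ] {C : Type v} [MulAction Γ C] {ι κ : Type} {n : ℕ}

theorem slp_part (hFree : StHomFree.{u, v}) (hVec : StVecFree.{u}) [Finite ι] [Finite κ]
    {c : Fin n → C} {A : Set C} (hA : Set.range c = A) (f : F Γ ι →ₗ[ZG Γ] F Γ κ) (x : C)
    (hx : LPS (MonoidAlgebra ℤ (MulAction.stabilizer Γ x))) :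
    SLP (homIn (sec c (sat (LinearMap.ker f) A) (sat_eqv _ _)) (cp ι c) x) := by
  have hfree := hVec Γ (MulAction.stabilizer Γ x) κ
  obtain ⟨k, ⟨e⟩⟩ := hFree Γ C (ι × Fin n) (cp ι c) x
  exact slp_sub hx (homIn (⊤ : Submodule (ZG Γ) (F Γ (ι × Fin n))) (cp ι c) x) _
    ⟨0, Module.Finite.equiv e.symm, Module.Projective.of_equiv e.symm⟩ (partMap c f x)
    (partMap_eq_zero hA f x) (homIn_le_top _ _ x)

end Parts

/-- Groups which act on trees with regular coherent edge stabilisers. -/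
theorem lps_tree (hTreeC : StTreeC.{u, v}) (hH : StHull.{v}) (hMV : StMV.{u, v})
    (hInd : StInd.{u, v}) (hFree : StHomFree.{u, v}) (hVec : StVecFree.{u})
    {Γ : Type u} [Group Γ] (V : Type v) [MulAction Γ V] (T : SimpleGraph V)
    (hT : TreeAct Γ V T)
    (hv : ∀ v : V, LPS (MonoidAlgebra ℤ (MulAction.stabilizer Γ v)))
    (he : ∀ u v : V, T.Adj u v → RegCoh (MonoidAlgebra ℤ (MulAction.stabilizer Γ (u, v)))) :
    LPS (ZG Γ) := by
  classical
  obtain ⟨_, O, hO1, hO2⟩ := hTreeC Γ V T hT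
  have hO : Ori Γ T O := ⟨hO1, hO2⟩
  refine lps_iff.2 fun r s f S hS hSK => ?_
  obtain ⟨o, A, n, m, c, b, hcA, hbA, hmv, hSo⟩ :=
    sat_mv (ι := Fin r) hH hT hO (LinearMap.ker f) S hS hSK
  -- the edges
  obtain ⟨d₁, hd₁⟩ := ffr_of_parts hInd (cp (Fin r) b)
    (sec b (sat (LinearMap.ker f) (SE T O A)) hmv.eqe) (fun P y hy => pr_mem_sec P hy)
    (fun a => ffr_part (κ := Fin s) hFree hVec hbA f _
      (he (b a.2).1 (b a.2).2 (hmv.bO a.2).2))
  -- the vertices
  have hB : SLP (sec c (sat (LinearMap.ker f) A) hmv.eqv) :=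
    slp_of_parts hInd (cp (Fin r) c) _ (fun P y hy => pr_mem_sec P hy)
      (fun a => slp_part (κ := Fin s) hFree hVec hcA f _ (hv (c a.2)))
  obtain ⟨d, hinj, hker, hsur, _⟩ := hMV Γ V T hT O hO (Fin r)
    (sat (LinearMap.ker f) A) (sat (LinearMap.ker f) (SE T O A)) n m c b hmv
  have h1 : SLP ((sec c (sat (LinearMap.ker f) A) hmv.eqv).map (eps Γ (Fin r) n)) := by
    refine hB.map_of_ker _ ⟨d₁, ?_⟩
    have e1 := LinearEquiv.ofInjective d hinj
    have e2 := LinearEquiv.ofEq _ _ hker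
    have h2 : (LinearMap.ker (eps Γ (Fin r) n ∘ₗ
        (sec c (sat (LinearMap.ker f) A) hmv.eqv).subtype)).map
        (sec c (sat (LinearMap.ker f) A) hmv.eqv).subtype =
        (sec c (sat (LinearMap.ker f) A) hmv.eqv ⊓ LinearMap.ker (eps Γ (Fin r) n) :
          Submodule (ZG Γ) (F Γ (Fin r × Fin n))) := by
      ext y
      constructor
      · rintro ⟨z, hz, rfl⟩
        exact ⟨z.2, hz⟩
      · intro hy
        exact ⟨⟨y, hy.1⟩, hy.2, rfl⟩
    have e3 := Submodule.equivMapOfInjective _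
      (sec c (sat (LinearMap.ker f) A) hmv.eqv).injective_subtype
      (LinearMap.ker (eps Γ (Fin r) n ∘ₗ (sec c (sat (LinearMap.ker f) A) hmv.eqv).subtype))
    exact hd₁.congr (((e1.trans e2).trans e3).trans (LinearEquiv.ofEq _ _ h2))
  obtain ⟨k, W, hW1, hW2, hW3⟩ := h1 S hS (by
    intro g hg
    have h2 : g ∈ (⨆ v, sat (LinearMap.ker f) A v) :=
      AddSubgroup.mem_iSup_of_mem o (hSo g hg)
    obtain ⟨y, hy⟩ := hsur g h2
    exact ⟨y, y.2, hy⟩)
  refine ⟨k, W, fun y hy => ?_, hW2, hW3⟩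
  obtain ⟨z, hz, hzy⟩ := hW1 y hy
  rw [← hzy]
  obtain ⟨q, -, hq⟩ := exists_sum_pr (cp (Fin r) c) z
  rw [hq, map_sum]
  exact Submodule.sum_mem _ fun x _ => (hz x).1

end Pool.Agent.Lib.MP_551055_al.T6
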